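import Pool.Agent.ETC.Closure

/-!
THEOREM LS (note 1939, local saturation), part 1: counting.

`q : V × V → B` is alternating, `c ∈ B`, `φ` a functional on `V`.  `F (y, ε)` is the map
`x ↦ q y x + ε φ(x) c`.
-/

set_option autoImplicit false
set_option linter.unusedSectionVars false

namespace Pool.Agent.LSS

open Finset ETC

variable {V B : Type} [AddCommGroup V] [Module (ZMod 2) V] [AddCommGroup B] [Module (ZMod 2) B]

/-- the linear map `x ↦ φ(x) c` -/
def fc (φ : D V) (c : B) : V →ₗ[ZMod 2] B := φ.smulRight c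

theorem fc_apply (φ : D V) (c : B) (x : V) : fc φ c x = φ x • c := rfl

theorem fc0 {φ : D V} {c : B} {x : V} (h : φ x = 0) : fc φ c x = 0 := by
  rw [fc_apply, h, zero_smul]

theorem fc1 {φ : D V} {c : B} {x : V} (h : φ x = 1) : fc φ c x = c := by
  rw [fc_apply, h, one_smul]

/-- the family `F` -/
def Ff (q : V →ₗ[ZMod 2] V →ₗ[ZMod 2] B) (φ : D V) (c : B) :
    (V × ZMod 2) →ₗ[ZMod 2] V →ₗ[ZMod 2] B :=
  q.coprod (LinearMap.toSpanSingleton (ZMod 2) _ (fc φ c))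

theorem Ff_zero (q : V →ₗ[ZMod 2] V →ₗ[ZMod 2] B) (φ : D V) (c : B) (y : V) :
    Ff q φ c (y, 0) = q y := by
  ext x; simp [Ff]

theorem Ff_one (q : V →ₗ[ZMod 2] V →ₗ[ZMod 2] B) (φ : D V) (c : B) (y : V) :
    Ff q φ c (y, 1) = q y + fc φ c := by
  ext x; simp [Ff]

/-- The situation of Theorem LS. -/
structure Loc (q : V →ₗ[ZMod 2] V →ₗ[ZMod 2] B) (φ : D V) (c : B) : Prop where
  alt : ∀ x, q x x = 0
  cne : c ≠ 0
  φne : φ ≠ 0
  sl : ∀ x, φ x = 1 → ∃ y, q x y = c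
  lk : ∀ z, (∃ y, q z y = c) → ∀ y, Lk (q z) (q y)

variable {q : V →ₗ[ZMod 2] V →ₗ[ZMod 2] B} {φ : D V} {c : B}

theorem Loc.symm (h : Loc q φ c) (x y : V) : q x y = q y x := by
  have h1 := h.alt (x + y)
  simp only [map_add, LinearMap.add_apply, h.alt, zero_add, add_zero] at h1
  exact (eq_of_add_eq_zero h1).symm

/-- some `s` has the prescribed values at `x`, `x'` -/
theorem Loc.solve (h : Loc q φ c) (x x' : V) : ∃ s, q s x = fc φ c x ∧ q s x' = fc φ c x' := by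
  -- two elements outside the kernel
  have key : ∀ a b, φ a = 1 → φ b = 1 → ∃ s, q s a = c ∧ q s b = c := by
    intro a b ha hb
    obtain ⟨u, hu⟩ := h.sl a ha
    obtain ⟨v, hv⟩ := h.sl b hb
    obtain ⟨t, h1, h2⟩ := h.lk a ⟨u, hu⟩ b u v (by rw [hu, hv])
    exact ⟨t, by rw [h.symm, h1, hu], by rw [h.symm, h2, hu]⟩
  rcases zm (φ x) with hx | hx <;> rcases zm (φ x') with hx' | hx'
  · exact ⟨0, by rw [fc0 hx, map_zero]; rfl, by rw [fc0 hx', map_zero]; rfl⟩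
  · obtain ⟨s, h1, h2⟩ := key x' (x + x') hx' (by rw [map_add, hx, hx', zero_add])
    refine ⟨s, ?_, by rw [fc1 hx', h1]⟩
    rw [map_add, h1] at h2
    rw [fc0 hx]
    have : q s x = c + c := by
      rw [← add_add_self' (q s x) c, h2]
    rw [this, ZModModule.add_self]
  · obtain ⟨s, h1, h2⟩ := key x (x + x') hx (by rw [map_add, hx, hx', add_zero])
    refine ⟨s, by rw [fc1 hx, h1], ?_⟩
    rw [map_add, h1] at h2
    rw [fc0 hx']
    have : q s x' = c + c := by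
      rw [← add_add_self c (q s x'), h2]
    rw [this, ZModModule.add_self]
  · obtain ⟨s, h1, h2⟩ := key x x' hx hx'
    exact ⟨s, by rw [fc1 hx, h1], by rw [fc1 hx', h2]⟩

section sums
variable [Fintype V]

/-- `F0` -/
noncomputable def F0 (q : V →ₗ[ZMod 2] V →ₗ[ZMod 2] B) (y : V) : ℤ := ETC.c (q y)

/-- `F1` -/
noncomputable def F1 (q : V →ₗ[ZMod 2] V →ₗ[ZMod 2] B) (φ : D V) (c : B) (y : V) : ℤ :=
  ETC.c (q y + fc φ c)

theorem Loc.sum_eq (h : Loc q φ c) (z : V) :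
    ∑ y : V, F1 q φ c y * F1 q φ c (y + z) = ∑ y : V, F0 q y * F0 q (y + z) := by
  have h1 : ∀ y : V, F1 q φ c y * F1 q φ c (y + z) =
      ∑ x : V, ∑ x' : V, ind ((q y + fc φ c) x = 0 ∧ (q (y + z) + fc φ c) x' = 0) := by
    intro y
    rw [F1, F1, ETC.c, ETC.c, Finset.sum_mul_sum]
    simp only [ind_and]
  have h2 : ∀ y : V, F0 q y * F0 q (y + z) =
      ∑ x : V, ∑ x' : V, ind (q y x = 0 ∧ q (y + z) x' = 0) := by
    intro y
    rw [F0, F0, ETC.c, ETC.c, Finset.sum_mul_sum]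
    simp only [ind_and]
  rw [Finset.sum_congr rfl fun y _ => h1 y, Finset.sum_congr rfl fun y _ => h2 y,
    Finset.sum_comm, Finset.sum_comm (f := fun (y : V) (x : V) => ∑ x' : V,
      ind (q y x = 0 ∧ q (y + z) x' = 0))]
  apply Finset.sum_congr rfl
  intro x _
  rw [Finset.sum_comm, Finset.sum_comm (f := fun (y : V) (x' : V) =>
      ind (q y x = 0 ∧ q (y + z) x' = 0))]
  apply Finset.sum_congr rfl
  intro x' _
  obtain ⟨s, a1, a2⟩ := h.solve x x'
  apply sum_ind_shift _ _ s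
  intro y
  rw [add_right_comm y s z]
  simp only [map_add, LinearMap.add_apply, a1, a2]
  rw [add_add_self', add_add_self']

/-- zeros of `q y` on `φ = 0` -/
noncomputable def na (q : V →ₗ[ZMod 2] V →ₗ[ZMod 2] B) (φ : D V) (y : V) : ℤ :=
  ∑ x : V, ind (q y x = 0 ∧ φ x = 0)

theorem na_pos (y : V) : 0 < na q φ y := by
  unfold na
  apply Finset.sum_pos' (fun v _ => ind_nonneg _)
  exact ⟨0, Finset.mem_univ _, by simp [ind]⟩

theorem nb_eq (y : V) (b : B) (hx : ∃ x, q y x = b ∧ φ x = 1) :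
    ∑ x : V, ind (q y x = b ∧ φ x = 1) = na q φ y := by
  obtain ⟨x0, h1, h2⟩ := hx
  unfold na
  apply sum_ind_shift _ _ x0
  intro v
  rw [map_add, map_add, h1, h2]
  constructor
  · rintro ⟨e1, e2⟩
    refine ⟨by simpa using e1, by simpa using e2⟩
  · rintro ⟨e1, e2⟩
    rw [e1, e2]; simp

theorem nb_zero (y : V) (b : B) (hx : ¬ ∃ x, q y x = b ∧ φ x = 1) :
    ∑ x : V, ind (q y x = b ∧ φ x = 1) = 0 := by
  apply Finset.sum_eq_zero
  intro x _
  exact ind_false fun h => hx ⟨x, h⟩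

theorem F0_split (y : V) : F0 q y = na q φ y + ∑ x : V, ind (q y x = 0 ∧ φ x = 1) := by
  unfold F0 ETC.c na
  rw [← Finset.sum_add_distrib]
  apply Finset.sum_congr rfl
  intro x _
  rcases zm (φ x) with h | h
  · rw [ind_false (P := q y x = 0 ∧ φ x = 1) (fun h' => zero_ne_one (h.symm.trans h'.2)),
      add_zero]
    exact ind_congr ⟨fun h' => ⟨h', h⟩, fun h' => h'.1⟩
  · rw [ind_false (P := q y x = 0 ∧ φ x = 0) (fun h' => zero_ne_one (h'.2.symm.trans h)),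
      zero_add]
    exact ind_congr ⟨fun h' => ⟨h', h⟩, fun h' => h'.1⟩

theorem F1_split (y : V) : F1 q φ c y = na q φ y + ∑ x : V, ind (q y x = c ∧ φ x = 1) := by
  unfold F1 ETC.c na
  rw [← Finset.sum_add_distrib]
  apply Finset.sum_congr rfl
  intro x _
  rw [LinearMap.add_apply]
  rcases zm (φ x) with h | h
  · rw [ind_false (P := q y x = c ∧ φ x = 1) (fun h' => zero_ne_one (h.symm.trans h'.2)),
      add_zero, fc0 h, add_zero]
    exact ind_congr ⟨fun h' => ⟨h', h⟩, fun h' => h'.1⟩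
  · rw [ind_false (P := q y x = 0 ∧ φ x = 0) (fun h' => zero_ne_one (h'.2.symm.trans h)),
      zero_add, fc1 h]
    exact ind_congr ⟨fun h' => ⟨ETC.add_eq_zero_iff.1 h', h⟩,
      fun h' => ETC.add_eq_zero_iff.2 h'.1⟩

/-- `y ∈ Θ` -/
def Th (q : V →ₗ[ZMod 2] V →ₗ[ZMod 2] B) (φ : D V) (c : B) (y : V) : Prop :=
  (∃ x, q y x = 0 ∧ φ x = 1) ∧ ¬ ∃ x, q y x = c ∧ φ x = 1

/-- `y ∈ Σ` -/
def Sg (q : V →ₗ[ZMod 2] V →ₗ[ZMod 2] B) (φ : D V) (c : B) (y : V) : Prop :=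
  (¬ ∃ x, q y x = 0 ∧ φ x = 1) ∧ ∃ x, q y x = c ∧ φ x = 1

theorem F_th {y : V} (h : Th q φ c y) : F0 q y = 2 * F1 q φ c y := by
  rw [F0_split (φ := φ), F1_split, nb_eq y 0 h.1, nb_zero y c h.2]; ring

theorem F_sg {y : V} (h : Sg q φ c y) : F1 q φ c y = 2 * F0 q y := by
  rw [F0_split (φ := φ), F1_split, nb_eq y c h.2, nb_zero y 0 h.1]; ring

theorem F_eq {y : V} (h1 : ¬ Th q φ c y) (h2 : ¬ Sg q φ c y) : F1 q φ c y = F0 q y := by
  rw [F0_split (φ := φ), F1_split]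
  by_cases ha : ∃ x, q y x = 0 ∧ φ x = 1 <;> by_cases hb : ∃ x, q y x = c ∧ φ x = 1
  · rw [nb_eq y 0 ha, nb_eq y c hb]
  · exact absurd ⟨ha, hb⟩ h1
  · exact absurd ⟨ha, hb⟩ h2
  · rw [nb_zero y 0 ha, nb_zero y c hb]

theorem F0_pos (y : V) : 0 < F0 q y := c_pos _

theorem F1_pos (y : V) : 0 < F1 q φ c y := c_pos _

theorem Loc.th_zero (h : Loc q φ c) : Th q φ c 0 := by
  constructor
  · obtain ⟨x, hx⟩ : ∃ x, φ x = 1 := by
      by_contra hc
      push Not at hc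
      exact h.φne (LinearMap.ext fun v => (zm (φ v)).resolve_right (hc v))
    exact ⟨x, by simp, hx⟩
  · rintro ⟨x, hx, -⟩
    rw [map_zero, LinearMap.zero_apply] at hx
    exact h.cne hx.symm

theorem Loc.th_ker (h : Loc q φ c) {y : V} (hy : Th q φ c y) : φ y = 0 := by
  by_contra hc
  have h1 := (zm (φ y)).resolve_left hc
  obtain ⟨u, hu⟩ := h.sl y h1
  rcases zm (φ u) with h2 | h2
  · apply hy.2
    refine ⟨u + y, by rw [map_add, hu, h.alt, add_zero], by rw [map_add, h1, h2, zero_add]⟩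
  · exact hy.2 ⟨u, hu, h2⟩

theorem Loc.sg_ker (h : Loc q φ c) {y : V} (hy : Sg q φ c y) : φ y = 0 := by
  by_contra hc
  have h1 := (zm (φ y)).resolve_left hc
  exact hy.1 ⟨y, h.alt y, h1⟩

/-- `Σ` is not empty -/
theorem Loc.sg_ex (h : Loc q φ c) : ∃ z, Sg q φ c z := by
  by_contra hc
  push Not at hc
  have hs := h.sum_eq 0
  simp only [add_zero] at hs
  have hle : ∀ y ∈ (Finset.univ : Finset V), F1 q φ c y * F1 q φ c y ≤ F0 q y * F0 q y := by
    intro y _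
    by_cases hy : Th q φ c y
    · have e := F_th hy
      have := F1_pos (q := q) (φ := φ) (c := c) y
      rw [e]; nlinarith
    · rw [F_eq hy (hc y)]
  have h0 := (Finset.sum_eq_sum_iff_of_le hle).1 hs 0 (Finset.mem_univ _)
  have e := F_th h.th_zero
  have := F1_pos (q := q) (φ := φ) (c := c) 0
  rw [e] at h0
  nlinarith

end sums

end Pool.Agent.LSS
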