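import Pool.Agent.ETC.Closure

/-!
A family of linear maps `F : Y → Hom(X, B)` with a functional `χ₀` on `Y` such that every pair
`F η, F y` with `χ₀ y = 1` is linked, and such that `∑ c(F y)² (-1)^{χ₀ y} = 0`, has a zero
`F y = 0` with `χ₀ y = 1`.  (Step (7) of Theorem LS, note 1939.)
-/

set_option autoImplicit false
set_option linter.unusedSectionVars false

namespace Pool.Agent.LSS

open Finset ETC

variable {X Y B : Type} [AddCommGroup X] [Module (ZMod 2) X] [AddCommGroup Y] [Module (ZMod 2) Y]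
  [AddCommGroup B] [Module (ZMod 2) B]

section
variable [Fintype X] [Fintype Y] [Fintype B]

/-- the Fourier coefficient of `y ↦ c (F y)` -/
noncomputable def Cf (F : Y →ₗ[ZMod 2] X →ₗ[ZMod 2] B) (χ : D Y) : ℤ :=
  ∑ η : Y, ETC.c (F η) * sg (χ η)

theorem Cf_mul (F : Y →ₗ[ZMod 2] X →ₗ[ZMod 2] B) (χ : D Y) :
    Fintype.card B * Cf F χ = Fintype.card Y * Tn F χ := sum_c_sg F χ

theorem Tn_nonneg (F : Y →ₗ[ZMod 2] X →ₗ[ZMod 2] B) (χ : D Y) : 0 ≤ Tn F χ :=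
  Finset.sum_nonneg fun _ _ => Finset.sum_nonneg fun _ _ => ind_nonneg _

theorem Cf_nonneg (F : Y →ₗ[ZMod 2] X →ₗ[ZMod 2] B) (χ : D Y) : 0 ≤ Cf F χ := by
  have h := Cf_mul F χ
  have hB := card_pos' (V := B)
  have : 0 ≤ (Fintype.card B : ℤ) * Cf F χ := by
    rw [h]; exact mul_nonneg (card_pos' (V := Y)).le (Tn_nonneg F χ)
  exact nonneg_of_mul_nonneg_right this hB

theorem Cf_pos {F : Y →ₗ[ZMod 2] X →ₗ[ZMod 2] B} {χ : D Y} (hχ : ∃ κ x, fct F κ x = χ) :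
    0 < Cf F χ := by
  have h := Cf_mul F χ
  have hB := card_pos' (V := B)
  have : 0 < (Fintype.card B : ℤ) * Cf F χ := by
    rw [h]; exact mul_pos (card_pos' (V := Y)) (Tn_pos hχ)
  exact (pos_iff_pos_of_mul_pos this).1 hB

theorem Cf_ex {F : Y →ₗ[ZMod 2] X →ₗ[ZMod 2] B} {χ : D Y} (hχ : 0 < Cf F χ) :
    ∃ κ x, fct F κ x = χ := by
  by_contra hc
  have h := Cf_mul F χ
  rw [Tn_zero hc, mul_zero] at h
  have hB := card_pos' (V := B)
  rcases mul_eq_zero.1 h with h | h <;> omega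

/-- the convolution with a linked point has nonnegative coefficients -/
theorem conv_off {F : Y →ₗ[ZMod 2] X →ₗ[ZMod 2] B} (χ : D Y) (y : Y)
    (hF : ∀ η, Lk (F η) (F y)) : 0 ≤ ∑ η : Y, ETC.c (F η) * ETC.c (F (η + y)) * sg (χ η) := by
  have h1 := conv_nonneg_aux F χ y
  have h2 : (Fintype.card X : ℤ) ^ 2 * ∑ η : Y, K2 (F η) (F y) * Z2 (F η) (F y) * sg (χ η) =
      (Fintype.card B * ETC.c (F y)) *
        ∑ η : Y, ETC.c (F η) * ETC.c (F (η + y)) * sg (χ η) := by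
    rw [Finset.mul_sum, Finset.mul_sum]
    apply Finset.sum_congr rfl
    intro η _
    have := (ms_eq_iff (F η) (F y)).2 (hF η)
    rw [map_add]
    linear_combination (-sg (χ η)) * this
  have h3 : 0 ≤ (Fintype.card B * ETC.c (F y)) *
      ∑ η : Y, ETC.c (F η) * ETC.c (F (η + y)) * sg (χ η) := by
    rw [← h2]; positivity
  exact nonneg_of_mul_nonneg_right h3 (mul_pos card_pos' (c_pos _))

/-- sum over all points -/
theorem conv_sum (F : Y →ₗ[ZMod 2] X →ₗ[ZMod 2] B) (χ θ : D Y) :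
    ∑ y : Y, (∑ η : Y, ETC.c (F η) * ETC.c (F (η + y)) * sg (χ η)) * sg (θ y) =
      Cf F (χ + θ) * Cf F θ := by
  rw [Finset.sum_congr rfl fun y _ => Finset.sum_mul _ _ _, Finset.sum_comm, Cf, Finset.sum_mul]
  apply Finset.sum_congr rfl
  intro η _
  rw [Cf, ← Equiv.sum_comp (Equiv.addLeft η) (fun w => ETC.c (F w) * sg (θ w)), Finset.mul_sum]
  apply Finset.sum_congr rfl
  intro y _
  simp only [Equiv.coe_addLeft]
  rw [LinearMap.add_apply, sg_add, map_add θ, sg_add]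
  have : sg (θ η) * sg (θ η) = 1 := by
    rcases zm (θ η) with h | h <;> simp [h]
  linear_combination (-(ETC.c (F η) * ETC.c (F (η + y)) * sg (χ η) * sg (θ y))) * this

/-- Parseval -/
theorem parseval (F : Y →ₗ[ZMod 2] X →ₗ[ZMod 2] B) (χ₀ : D Y) :
    ∑ χ : D Y, Cf F χ * Cf F (χ + χ₀) =
      Fintype.card Y * ∑ y : Y, ETC.c (F y) * ETC.c (F y) * sg (χ₀ y) := by
  have h1 : ∀ χ : D Y, Cf F χ * Cf F (χ + χ₀) = ∑ η : Y, ∑ η' : Y,
      ETC.c (F η) * ETC.c (F η') * sg (χ₀ η') * sg (χ (η + η')) := by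
    intro χ
    rw [Cf, Cf, Finset.sum_mul_sum]
    apply Finset.sum_congr rfl
    intro η _
    apply Finset.sum_congr rfl
    intro η' _
    rw [LinearMap.add_apply, sg_add, map_add, sg_add]
    ring
  rw [Finset.sum_congr rfl fun χ _ => h1 χ, Finset.sum_comm, Finset.mul_sum]
  apply Finset.sum_congr rfl
  intro η _
  rw [Finset.sum_comm]
  have h2 : ∀ η' : Y, ∑ χ : D Y, ETC.c (F η) * ETC.c (F η') * sg (χ₀ η') * sg (χ (η + η')) =
      ETC.c (F η) * ETC.c (F η') * sg (χ₀ η') * (Fintype.card Y * ind (η + η' = 0)) := by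
    intro η'
    rw [← Finset.mul_sum, sum_sg_dual]
  rw [Finset.sum_congr rfl fun η' _ => h2 η', Finset.sum_eq_single η]
  · rw [ind_true (ZModModule.add_self η)]; ring
  · intro η' _ hne
    rw [ind_false fun h => hne (ETC.eq_of_add_eq_zero h).symm, mul_zero, mul_zero]
  · intro h
    exact absurd (Finset.mem_univ _) h

end

theorem zero_off [Fintype X] [Fintype Y] [Fintype B] {F : Y →ₗ[ZMod 2] X →ₗ[ZMod 2] B}
    (χ₀ : D Y) (hL : ∀ y, χ₀ y = 1 → ∀ η, Lk (F η) (F y))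
    (h0 : ∑ y : Y, ETC.c (F y) * ETC.c (F y) * sg (χ₀ y) = 0) :
    ∃ y, χ₀ y = 1 ∧ F y = 0 := by
  classical
  have hp := parseval F χ₀
  rw [h0, mul_zero] at hp
  have hprod : ∀ χ, Cf F χ * Cf F (χ + χ₀) = 0 := fun χ =>
    (Finset.sum_eq_zero_iff_of_nonneg
      (fun χ _ => mul_nonneg (Cf_nonneg F χ) (Cf_nonneg F (χ + χ₀)))).1 hp χ (Finset.mem_univ _)
  have hz0 : ∃ κ x, fct F κ x = (0 : D Y) := ⟨0, 0, by ext; simp⟩
  have hc0 : Cf F χ₀ = 0 := by
    have := hprod 0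
    rw [zero_add] at this
    exact (mul_eq_zero.1 this).resolve_left (Cf_pos hz0).ne'
  -- the key inequality
  have key : ∀ ψ₁ ψ₂ : D Y, (∃ κ x, fct F κ x = ψ₁) → (∃ κ x, fct F κ x = ψ₂) →
      ∃ κ x, fct F κ x = ψ₁ + ψ₂ := by
    intro ψ₁ ψ₂ h₁ h₂
    set χ := ψ₁ + ψ₂ with hχ
    have hP : ∀ y : Y, 0 ≤ (∑ η : Y, ETC.c (F η) * ETC.c (F (η + y)) * sg (χ η)) *
        ((1 - sg (χ₀ y)) * (1 - sg (ψ₂ y))) := by
      intro y
      rcases zm (χ₀ y) with h | h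
      · rw [h]; simp
      · apply mul_nonneg (conv_off χ y (hL y h))
        rcases zm (ψ₂ y) with h' | h' <;> rw [h, h'] <;> simp
    have hS : 0 ≤ ∑ y : Y, (∑ η : Y, ETC.c (F η) * ETC.c (F (η + y)) * sg (χ η)) *
        ((1 - sg (χ₀ y)) * (1 - sg (ψ₂ y))) := Finset.sum_nonneg fun y _ => hP y
    have hE : ∑ y : Y, (∑ η : Y, ETC.c (F η) * ETC.c (F (η + y)) * sg (χ η)) *
        ((1 - sg (χ₀ y)) * (1 - sg (ψ₂ y))) =
        Cf F (χ + 0) * Cf F 0 - Cf F (χ + χ₀) * Cf F χ₀ - Cf F (χ + ψ₂) * Cf F ψ₂ +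
          Cf F (χ + (χ₀ + ψ₂)) * Cf F (χ₀ + ψ₂) := by
      rw [← conv_sum, ← conv_sum, ← conv_sum, ← conv_sum, ← Finset.sum_sub_distrib,
        ← Finset.sum_sub_distrib, ← Finset.sum_add_distrib]
      apply Finset.sum_congr rfl
      intro y _
      rw [LinearMap.add_apply, sg_add, LinearMap.zero_apply, sg_zero]
      ring
    have hz : Cf F (χ₀ + ψ₂) = 0 := by
      have := hprod ψ₂
      rw [add_comm χ₀]
      exact (mul_eq_zero.1 this).resolve_left (Cf_pos h₂).ne'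
    have hx : χ + ψ₂ = ψ₁ := by rw [hχ, add_assoc, ZModModule.add_self, add_zero]
    rw [hE, hc0, hz, hx, mul_zero, mul_zero, add_zero, add_zero, sub_zero] at hS
    have h3 : 0 < Cf F χ * Cf F 0 := by
      have := mul_pos (Cf_pos h₁) (Cf_pos h₂)
      omega
    exact Cf_ex ((pos_iff_pos_of_mul_pos h3).2 (Cf_pos hz0))
  let G : Submodule (ZMod 2) (D Y) :=
    { carrier := {χ | ∃ κ x, fct F κ x = χ}
      add_mem' := fun h₁ h₂ => key _ _ h₁ h₂
      zero_mem' := hz0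
      smul_mem' := by
        rintro a χ ⟨κ, x, h⟩
        rcases zm a with rfl | rfl
        · rw [zero_smul]; exact hz0
        · exact ⟨κ, x, by rw [one_smul, h]⟩ }
  have hτ : χ₀ ∉ G := fun h => (Cf_pos h).ne' hc0
  obtain ⟨f, hf1, hf2⟩ := exists_dual_sep hτ
  obtain ⟨y, rfl⟩ := (Module.evalEquiv (ZMod 2) Y).surjective f
  refine ⟨y, by simpa using hf1, ?_⟩
  ext x
  rw [LinearMap.zero_apply]
  by_contra hne
  obtain ⟨κ, hκ⟩ := exists_dual_ne hne
  have h2 := hf2 (fct F κ x) ⟨κ, x, rfl⟩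
  rw [Module.evalEquiv_apply, Module.Dual.eval_apply, fct_apply] at h2
  rw [h2] at hκ
  exact zero_ne_one hκ

end Pool.Agent.LSS
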