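import Pool.Agent.LSS.Core
import Pool.Agent.LSS.Off

/-!
THEOREM LS (note 1939, local saturation).  `V` finite, `q` alternating, `c ≠ 0`, `φ ≠ 0`; every
`x` with `φ x = 1` has `c` among its values, and `z` is linked with every `y` if `c` is a value
of `z`.  Then there is `t` in `ker φ` with `q t v = φ(v) c` for all `v`.
-/

set_option autoImplicit false
set_option linter.unusedSectionVars false

namespace Pool.Agent.LSS

open Finset ETC

variable {V B : Type} [AddCommGroup V] [Module (ZMod 2) V] [AddCommGroup B] [Module (ZMod 2) B]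
variable {q : V →ₗ[ZMod 2] V →ₗ[ZMod 2] B} {φ : D V} {c : B}

theorem Lk.sum {g g' : V →ₗ[ZMod 2] B} (h : Lk g g') : Lk g (g + g') := by
  intro x x' e
  rw [LinearMap.add_apply] at e
  have e' : g (x + x') = g' x' := by
    rw [map_add, e, add_right_comm, ZModModule.add_self, zero_add]
  obtain ⟨t, h1, h2⟩ := h _ _ e'
  refine ⟨t + x', ?_, ?_⟩
  · rw [map_add, h1, map_add, add_add_self']
  · rw [LinearMap.add_apply, map_add g, h1, map_add g', h2, add_add_add_comm,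
      ZModModule.add_self, zero_add, e]

theorem Lk.symm' {g g' : V →ₗ[ZMod 2] B} (h : Lk g g') : Lk g' g := by
  intro x x' e
  obtain ⟨t, h1, h2⟩ := h x' x e.symm
  exact ⟨t, by rw [h2, e], by rw [h1, e]⟩

section
variable [Fintype V] [Fintype B]

theorem K2_eq {z : V} (hz : ∃ y, q z y = c) (y : V) :
    K2 (q z) (q y + fc φ c) = K2 (q z) (q y) := by
  obtain ⟨u, hu⟩ := hz
  unfold K2
  apply Finset.sum_congr rfl
  intro κ _
  apply ind_congr
  have key : κ ∘ₗ q z = 0 → κ ∘ₗ fc φ c = 0 := by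
    intro h
    have h1 := LinearMap.congr_fun h u
    rw [LinearMap.comp_apply, hu, LinearMap.zero_apply] at h1
    ext x
    rw [LinearMap.comp_apply, fc_apply, map_smul, h1, smul_zero, LinearMap.zero_apply]
  constructor
  · rintro ⟨h1, h2⟩
    refine ⟨h1, ?_⟩
    rwa [LinearMap.comp_add, key h1, add_zero] at h2
  · rintro ⟨h1, h2⟩
    refine ⟨h1, ?_⟩
    rw [LinearMap.comp_add, key h1, add_zero, h2]

theorem Z2_eq {z : V} (hz : Sg q φ c z) (y : V) : Z2 (q z) (q y + fc φ c) = Z2 (q z) (q y) := by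
  unfold Z2
  apply Finset.sum_congr rfl
  intro x _
  apply ind_congr
  have key : q z x = 0 → fc φ c x = 0 := fun h =>
    fc0 ((zm (φ x)).resolve_right fun h' => hz.1 ⟨x, h, h'⟩)
  rw [LinearMap.add_apply]
  constructor
  · rintro ⟨h1, h2⟩
    exact ⟨h1, by rwa [key h1, add_zero] at h2⟩
  · rintro ⟨h1, h2⟩
    exact ⟨h1, by rw [key h1, add_zero, h2]⟩

theorem Loc.le (h : Loc q φ c) {z : V} (hz : Sg q φ c z) (y : V) :
    F1 q φ c y * F1 q φ c (y + z) ≤ F0 q y * F0 q (y + z) := by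
  have hz' : ∃ y, q z y = c := ⟨hz.2.choose, hz.2.choose_spec.1⟩
  have h1 := ms_le (q z) (q y + fc φ c)
  have h2 := (ms_eq_iff (q z) (q y)).2 (h.lk z hz' y)
  rw [K2_eq hz', Z2_eq hz, ← h2] at h1
  have e1 : q z + (q y + fc φ c) = q (y + z) + fc φ c := by
    rw [map_add, ← add_assoc, add_comm (q z)]
  have e2 : q z + q y = q (y + z) := by rw [map_add, add_comm]
  rw [e1, e2] at h1
  have hB := card_pos' (V := B)
  have hc := c_pos (q z)
  have h3 := le_of_mul_le_mul_left h1 hB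
  have h4 : ETC.c (q z) * (F1 q φ c y * F1 q φ c (y + z)) ≤
      ETC.c (q z) * (F0 q y * F0 q (y + z)) := by
    unfold F1 F0
    linarith [h3]
  exact le_of_mul_le_mul_left h4 hc

theorem Loc.eq (h : Loc q φ c) {z : V} (hz : Sg q φ c z) (y : V) :
    F1 q φ c y * F1 q φ c (y + z) = F0 q y * F0 q (y + z) :=
  (Finset.sum_eq_sum_iff_of_le fun y _ => h.le hz y).1 (h.sum_eq z) y (Finset.mem_univ _)

theorem Loc.th_sg (h : Loc q φ c) {y z : V} (hy : Th q φ c y) (hz : Sg q φ c z) :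
    Sg q φ c (y + z) := by
  have e := h.eq hz y
  rw [F_th hy] at e
  have hp := F1_pos (q := q) (φ := φ) (c := c) y
  have hp' := F0_pos (q := q) (y + z)
  have e' : F1 q φ c (y + z) = 2 * F0 q (y + z) := by
    apply mul_left_cancel₀ hp.ne'
    linear_combination e
  by_contra hs
  by_cases ht : Th q φ c (y + z)
  · have := F_th ht
    omega
  · have := F_eq ht hs
    omega

theorem Loc.sg_sg (h : Loc q φ c) {y z : V} (hy : Sg q φ c y) (hz : Sg q φ c z) :
    Th q φ c (y + z) := by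
  have e := h.eq hz y
  rw [F_sg hy] at e
  have hp := F0_pos (q := q) y
  have hp' := F0_pos (q := q) (y + z)
  have e' : 2 * F1 q φ c (y + z) = F0 q (y + z) := by
    apply mul_left_cancel₀ hp.ne'
    linear_combination e
  by_contra ht
  by_cases hs : Sg q φ c (y + z)
  · have := F_sg hs
    omega
  · have := F_eq ht hs
    omega

theorem Loc.th_th (h : Loc q φ c) {y y' : V} (hy : Th q φ c y) (hy' : Th q φ c y') :
    Th q φ c (y + y') := by
  obtain ⟨z, hz⟩ := h.sg_ex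
  have := h.sg_sg (h.th_sg hy hz) (h.th_sg hy' hz)
  rwa [add_add_add_comm, ZModModule.add_self, add_zero] at this

end

/-- two members of `Σ + f₀` are linked -/
theorem Loc.lk_sg (h : Loc q φ c) {t t' : V} (ht : Sg q φ c t) (ht' : Sg q φ c t') :
    Lk (q t + fc φ c) (q t' + fc φ c) := by
  have hs : ∃ y, q t y = c := ⟨ht.2.choose, ht.2.choose_spec.1⟩
  have hs' : ∃ y, q t' y = c := ⟨ht'.2.choose, ht'.2.choose_spec.1⟩
  -- a common `c`-slot
  obtain ⟨a, ha⟩ := hs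
  obtain ⟨b, hb⟩ := hs'
  obtain ⟨u, hu, hu'⟩ := h.lk t ⟨a, ha⟩ t' a b (by rw [ha, hb])
  rw [ha] at hu hu'
  have hφu : φ u = 1 := by
    obtain ⟨v, hv, hv'⟩ := ht.2
    by_contra hc
    have h0 := (zm (φ u)).resolve_right hc
    exact ht.1 ⟨u + v, by rw [map_add, hu, hv, ZModModule.add_self],
      by rw [map_add, h0, hv', zero_add]⟩
  have hgu : (q t + fc φ c) u = 0 := by
    rw [LinearMap.add_apply, hu, fc1 hφu, ZModModule.add_self]
  have hgu' : (q t' + fc φ c) u = 0 := by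
    rw [LinearMap.add_apply, hu', fc1 hφu, ZModModule.add_self]
  -- reduction to `φ x = 0 = φ x'`
  have red : ∀ (g : V →ₗ[ZMod 2] B), g u = 0 → ∀ x, ∃ y, g y = g x ∧ φ y = 0 := by
    intro g hg x
    rcases zm (φ x) with h0 | h0
    · exact ⟨x, rfl, h0⟩
    · exact ⟨x + u, by rw [map_add, hg, add_zero], by rw [map_add, h0, hφu, ZModModule.add_self]⟩
  intro x x' e
  obtain ⟨y, hy, hφy⟩ := red _ hgu x
  obtain ⟨y', hy', hφy'⟩ := red _ hgu' x'
  rw [← hy, ← hy'] at e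
  rw [← hy]
  rw [LinearMap.add_apply, LinearMap.add_apply, fc0 hφy, fc0 hφy', add_zero, add_zero] at e
  obtain ⟨s, h1, h2⟩ := h.lk t ⟨a, ha⟩ t' y y' e
  have hφs : φ s = 0 := by
    by_contra hc
    have h0 := (zm (φ s)).resolve_left hc
    exact ht.1 ⟨s + y, by rw [map_add, h1, ZModModule.add_self],
      by rw [map_add, h0, hφy, add_zero]⟩
  exact ⟨s, by rw [LinearMap.add_apply, LinearMap.add_apply, fc0 hφs, fc0 hφy, h1],
    by rw [LinearMap.add_apply, LinearMap.add_apply, fc0 hφs, fc0 hφy, h2]⟩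

/-- the group of formal elements `Θ ∪ (Σ + f₀)` -/
def Gt [Fintype V] [Fintype B] (h : Loc q φ c) : Submodule (ZMod 2) (V × ZMod 2) where
  carrier := {η | (η.2 = 0 ∧ Th q φ c η.1) ∨ (η.2 = 1 ∧ Sg q φ c η.1)}
  add_mem' := by
    rintro ⟨a, ε⟩ ⟨b, δ⟩ ha hb
    change (ε = 0 ∧ Th q φ c a) ∨ (ε = 1 ∧ Sg q φ c a) at ha
    change (δ = 0 ∧ Th q φ c b) ∨ (δ = 1 ∧ Sg q φ c b) at hb
    change (ε + δ = 0 ∧ Th q φ c (a + b)) ∨ (ε + δ = 1 ∧ Sg q φ c (a + b))
    rcases ha with ⟨rfl, ha⟩ | ⟨rfl, ha⟩ <;> rcases hb with ⟨rfl, hb⟩ | ⟨rfl, hb⟩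
    · exact Or.inl ⟨by decide, h.th_th ha hb⟩
    · exact Or.inr ⟨by decide, h.th_sg ha hb⟩
    · exact Or.inr ⟨by decide, by rw [add_comm]; exact h.th_sg hb ha⟩
    · exact Or.inl ⟨by decide, h.sg_sg ha hb⟩
  zero_mem' := Or.inl ⟨rfl, h.th_zero⟩
  smul_mem' := by
    intro a η hη
    rcases zm a with rfl | rfl
    · rw [zero_smul]; exact Or.inl ⟨rfl, h.th_zero⟩
    · rwa [one_smul]

/-- **Theorem LS.** -/
theorem local_saturation [Finite V] [Finite B] (h : Loc q φ c) :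
    ∃ t, φ t = 0 ∧ ∀ v, q t v = φ v • c := by
  classical
  have := Fintype.ofFinite V
  have := Fintype.ofFinite B
  let Y := Gt h
  let F : Y →ₗ[ZMod 2] V →ₗ[ZMod 2] B := (Ff q φ c).comp Y.subtype
  let χ₀ : D Y := (LinearMap.snd (ZMod 2) V (ZMod 2)).comp Y.subtype
  have := Fintype.ofFinite Y
  have hF0 : ∀ y : Y, χ₀ y = 0 → F y = q y.1.1 ∧ Th q φ c y.1.1 := by
    rintro ⟨⟨a, ε⟩, ha⟩ h0
    change ε = 0 at h0
    subst h0
    refine ⟨Ff_zero q φ c a, ?_⟩
    rcases ha with ⟨-, ha⟩ | ⟨h1, -⟩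
    · exact ha
    · exact absurd h1 (by decide : (0 : ZMod 2) ≠ 1)
  have hF1 : ∀ y : Y, χ₀ y = 1 → F y = q y.1.1 + fc φ c ∧ Sg q φ c y.1.1 := by
    rintro ⟨⟨a, ε⟩, ha⟩ h0
    change ε = 1 at h0
    subst h0
    refine ⟨Ff_one q φ c a, ?_⟩
    rcases ha with ⟨h1, -⟩ | ⟨-, ha⟩
    · exact absurd h1 (by decide : (1 : ZMod 2) ≠ 0)
    · exact ha
  have hL1 : ∀ y : Y, χ₀ y = 1 → ∀ η, χ₀ η = 1 → Lk (F η) (F y) := by
    intro y hy η hη
    rw [(hF1 y hy).1, (hF1 η hη).1]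
    exact h.lk_sg (hF1 η hη).2 (hF1 y hy).2
  have hL : ∀ y : Y, χ₀ y = 1 → ∀ η, Lk (F η) (F y) := by
    intro y hy η
    rcases zm (χ₀ η) with hη | hη
    · have h1 := hL1 y hy (η + y) (by rw [map_add, hη, hy, zero_add])
      have h2 := (Lk.sum (Lk.symm' h1))
      rw [map_add, add_comm (F η), ← add_assoc, ZModModule.add_self, zero_add] at h2
      exact Lk.symm' h2
    · exact hL1 y hy η hη
  -- the sum over `Y`
  have hs := h.sum_eq 0
  simp only [add_zero] at hs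
  have e1 : ∀ y : Y, ETC.c (F y) * ETC.c (F y) * sg (χ₀ y) =
      (fun η : V × ZMod 2 => ind (η.2 = 0 ∧ Th q φ c η.1) * (F0 q η.1 * F0 q η.1) -
        ind (η.2 = 1 ∧ Sg q φ c η.1) * (F1 q φ c η.1 * F1 q φ c η.1)) y.1 := by
    intro y
    rcases zm (χ₀ y) with h0 | h0
    · obtain ⟨h1, h2⟩ := hF0 y h0
      have h3 : y.1.2 = 0 := h0
      rw [h0, h1]
      simp only
      rw [ind_true ⟨h3, h2⟩, ind_false (fun h' => zero_ne_one (h3.symm.trans h'.1)), sg_zero,
        F0]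
      ring
    · obtain ⟨h1, h2⟩ := hF1 y h0
      have h3 : y.1.2 = 1 := h0
      rw [h0, h1]
      simp only
      rw [ind_true (P := y.1.2 = 1 ∧ Sg q φ c y.1.1) ⟨h3, h2⟩,
        ind_false (P := y.1.2 = 0 ∧ Th q φ c y.1.1)
          (fun h' => zero_ne_one (h'.1.symm.trans h3)), sg_one, F1]
      ring
  have e2 : ∑ y : Y, (fun η : V × ZMod 2 =>
        ind (η.2 = 0 ∧ Th q φ c η.1) * (F0 q η.1 * F0 q η.1) -
        ind (η.2 = 1 ∧ Sg q φ c η.1) * (F1 q φ c η.1 * F1 q φ c η.1)) y.1 =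
      ∑ η : V × ZMod 2, (ind (η.2 = 0 ∧ Th q φ c η.1) * (F0 q η.1 * F0 q η.1) -
        ind (η.2 = 1 ∧ Sg q φ c η.1) * (F1 q φ c η.1 * F1 q φ c η.1)) := by
    apply Finset.sum_of_injOn (fun y : Y => y.1) (fun a _ b _ hab => Subtype.ext hab)
      (fun _ _ => Finset.mem_univ _)
    · intro η _ hη
      have hn : η ∉ Y := fun hy => hη ⟨⟨η, hy⟩, Finset.mem_coe.2 (Finset.mem_univ _), rfl⟩
      rw [ind_false (fun h' => hn (Or.inl h')), ind_false (fun h' => hn (Or.inr h'))]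
      ring
    · intro _ _
      rfl
  have e3 : ∑ η : V × ZMod 2, (ind (η.2 = 0 ∧ Th q φ c η.1) * (F0 q η.1 * F0 q η.1) -
        ind (η.2 = 1 ∧ Sg q φ c η.1) * (F1 q φ c η.1 * F1 q φ c η.1)) =
      ∑ y : V, (ind (Th q φ c y) * (F0 q y * F0 q y) -
        ind (Sg q φ c y) * (F1 q φ c y * F1 q φ c y)) := by
    rw [Fintype.sum_prod_type]
    apply Finset.sum_congr rfl
    intro y _
    have hu : (Finset.univ : Finset (ZMod 2)) = {0, 1} := by decide
    rw [hu, Finset.sum_pair (by decide)]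
    have i0 : ind (True ∧ Th q φ c y) = ind (Th q φ c y) :=
      ind_congr ⟨fun h => h.2, fun h => ⟨trivial, h⟩⟩
    have i1 : ind (True ∧ Sg q φ c y) = ind (Sg q φ c y) :=
      ind_congr ⟨fun h => h.2, fun h => ⟨trivial, h⟩⟩
    have i2 : ind ((1 : ZMod 2) = 0 ∧ Th q φ c y) = 0 :=
      ind_false fun h => absurd h.1 (by decide)
    have i3 : ind ((0 : ZMod 2) = 1 ∧ Sg q φ c y) = 0 :=
      ind_false fun h => absurd h.1 (by decide)
    simp only
    rw [i0, i1, i2, i3]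
    ring
  have e4 : ∀ y : V, 4 * (ind (Th q φ c y) * (F0 q y * F0 q y) -
        ind (Sg q φ c y) * (F1 q φ c y * F1 q φ c y)) * 3 =
        16 * (F0 q y * F0 q y - F1 q φ c y * F1 q φ c y) := by
    intro y
    by_cases h1 : Th q φ c y
    · have h2 : ¬ Sg q φ c y := fun h2 => h2.1 h1.1
      rw [ind_true h1, ind_false h2, F_th h1]
      ring
    · by_cases h2 : Sg q φ c y
      · rw [ind_false h1, ind_true h2, F_sg h2]
        ring
      · rw [ind_false h1, ind_false h2, F_eq h1 h2]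
        ring
  have e5 : ∑ y : V, (ind (Th q φ c y) * (F0 q y * F0 q y) -
        ind (Sg q φ c y) * (F1 q φ c y * F1 q φ c y)) = 0 := by
    have : ∑ y : V, 4 * (ind (Th q φ c y) * (F0 q y * F0 q y) -
        ind (Sg q φ c y) * (F1 q φ c y * F1 q φ c y)) * 3 = 0 := by
      rw [Finset.sum_congr rfl fun y _ => e4 y, ← Finset.mul_sum, Finset.sum_sub_distrib, hs,
        sub_self, mul_zero]
    rw [← Finset.sum_mul, ← Finset.mul_sum] at this
    omega
  obtain ⟨y, hy1, hy2⟩ := zero_off (F := F) χ₀ hL (by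
    rw [Finset.sum_congr rfl fun y _ => e1 y, e2, e3, e5])
  refine ⟨y.1.1, ?_, ?_⟩
  · exact h.sg_ker (hF1 y hy1).2
  · intro v
    have h1 := LinearMap.congr_fun ((hF1 y hy1).1.symm.trans hy2) v
    rw [LinearMap.add_apply, LinearMap.zero_apply, fc_apply] at h1
    exact ETC.eq_of_add_eq_zero h1

end Pool.Agent.LSS
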