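import Pool.Agent.LSS.Nb

/-!
One rigid class modulo `V_x` gives a prime functional (note 1840, helper95).
-/

set_option autoImplicit false
set_option linter.unusedSimpArgs false
set_option linter.unusedVariables false
set_option linter.unusedSectionVars false

namespace Pool.Agent.LSS

open Pool.Agent.Helper58.PLine (QData exists_functional add_self_add)
open Pool.Agent.ETCP Pool.Agent.ETCISO

variable {V Q : Type} [AddCommGroup V] [Module (ZMod 2) V]
variable {S : QData V Q} {x : V}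

theorem mem_Fs {he : S.e = 0} {e : V} : e ∈ Fs S he x ↔ ¬ Rg S x e := Iff.rfl

theorem ann_le_Fs (he : S.e = 0) {w : V} (hw : C S x w) : w ∈ Fs S he x := fun h => h.1 hw

theorem rg_of_not {he : S.e = 0} {e : V} (h : e ∉ Fs S he x) : Rg S x e := by
  by_contra hc
  exact h hc

/-- neighbours of classes in `F` are in `F` -/
theorem Fs_nb {he : S.e = 0} {f e : V} (hf : f ∈ Fs S he x) (hfx : ¬ C S x f) (h : Nb S x f e) :
    e ∈ Fs S he x := by
  intro hr
  rcases hr.2 f h.symm with h1 | h1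
  · exact hfx h1
  · exact hf (hr.congr (h1.of_eq rfl (add_comm _ _)))

/-- forms of rank two -/
theorem rk2_of_Fs (he : S.e = 0) (f1 f2 : V →ₗ[ZMod 2] ZMod 2)
    (h1 : ∀ y ∈ Fs S he x, f1 y = 0) (h2 : ∀ y, C S x y → f2 y = 0)
    (ha : ∃ a, f1 a = 1 ∧ f2 a = 0) (hb : ∃ b, f2 b = 1) : Rk2 S (f1.prod f2) := by
  have key : ∀ a b, C S a b → a ∉ Fs S he x → dl ((f1.prod f2) a) ((f1.prod f2) b) = 0 := by
    intro a b hab haF
    rcases (rg_of_not haF).2 b (Nb.of hab) with h | h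
    · have : (f1.prod f2) b = 0 := by
        show (f1 b, f2 b) = 0
        rw [h1 b (ann_le_Fs he h), h2 b h]; rfl
      rw [this, dl_comm, dl_zero]
    · have e1 := h1 _ (ann_le_Fs he h)
      have e2 := h2 _ h
      rw [map_add] at e1 e2
      have : (f1.prod f2) b = (f1.prod f2) a := by
        show (f1 b, f2 b) = (f1 a, f2 a)
        rw [eo (V := ZMod 2) e1, eo (V := ZMod 2) e2]
      rw [this, dl_self]
  refine ⟨he, ?_, ?_⟩
  · obtain ⟨a, ha1, ha2⟩ := ha
    obtain ⟨b, hb2⟩ := hb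
    have hb' : ∃ b, f1 b = 0 ∧ f2 b = 1 := by
      rcases (zv (a := f1 b)) with h | h
      · exact ⟨b, h, hb2⟩
      · refine ⟨a + b, ?_, ?_⟩
        · rw [map_add, ha1, h]; decide
        · rw [map_add, ha2, hb2]; decide
    obtain ⟨b', hb1', hb2'⟩ := hb'
    rintro ⟨i, j⟩
    refine ⟨i • a + j • b', ?_⟩
    show (f1 (i • a + j • b'), f2 (i • a + j • b')) = (i, j)
    rw [map_add, map_add, map_smul, map_smul, map_smul, map_smul, ha1, ha2, hb1', hb2']
    simp
  · intro a b hab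
    by_cases haF : a ∈ Fs S he x
    · by_cases hbF : b ∈ Fs S he x
      · show f1 a * f2 b + f2 a * f1 b = 0
        rw [h1 a haF, h1 b hbF, zero_mul, mul_zero, add_zero]
      · rw [dl_comm]
        exact key b a hab.symm hbF
    · exact key a b hab haF

/-- a subspace `N_z` which is not inside `F` contains `F` -/
theorem Fs_le_Nz [Finite V] (he : S.e = 0) {z a : V} (hz : C S x z) (ha : C S z a)
    (haF : a ∉ Fs S he x) : Fs S he x ≤ Nz S x z := by
  intro d hd
  by_contra hdN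
  obtain ⟨f1, f1a, f10⟩ := exists_functional haF
  obtain ⟨f2, f2d, f20⟩ := exists_functional hdN
  have hx2 : ∀ y, C S x y → f2 y = 0 := fun y hy => f20 y (annx_le_Nz z hy)
  have hx1 : ∀ y, C S x y → f1 y = 0 := fun y hy => f10 y (ann_le_Fs he hy)
  have f2a : f2 a = 0 := f20 a (ann_le_Nz z ha)
  have X := rk2_of_Fs he f1 f2 f10 hx2 ⟨a, f1a, f2a⟩ ⟨d, f2d⟩
  have t1 : Ti S (f1.prod f2) ((1, 0) : E) z := by
    refine ⟨⟨?_, a, ?_, ha⟩, ?_⟩
    · show (f1 z, f2 z) = 0
      rw [hx1 z hz, hx2 z hz]; rfl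
    · show (f1 a, f2 a) = (1, 0)
      rw [f1a, f2a]
    · rintro j hj0 hj1 ⟨-, w, hw, hcw⟩
      have e2 : f2 w = 0 := f20 w (ann_le_Nz z hcw)
      have e3 : (f1 w, f2 w) = j := hw
      rw [e2] at e3
      rcases (zv (a := f1 w)) with h | h
      · rw [h] at e3; exact hj0 e3.symm
      · rw [h] at e3; exact hj1 e3.symm
  -- a neighbour of `d` in the kernel
  have hdx : ¬ C S x d := by
    intro h
    rw [hx2 d h] at f2d
    exact absurd f2d (by decide)
  obtain ⟨v, hv1, hv2, hv3⟩ : ∃ v, Nb S x d v ∧ ¬ C S x v ∧ ¬ C S x (v + d) := by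
    have h := hd
    rw [mem_Fs] at h
    unfold Rg at h
    push Not at h
    exact h hdx
  obtain ⟨v', k1, k2, k3⟩ : ∃ v', Nb S x d v' ∧ ¬ C S x v' ∧ f2 v' = 0 := by
    rcases (zv (a := f2 v)) with h | h
    · exact ⟨v, hv1, hv2, h⟩
    · refine ⟨v + d, hv1.add he (Nb.self he d), hv3, ?_⟩
      rw [map_add, h, f2d]; decide
  have hv'F : v' ∈ Fs S he x := Fs_nb hd hdx k1
  obtain ⟨w, w', p1, p1', p2⟩ := k1
  have hzF : v' + w' ∈ Fs S he x := (Fs S he x).add_mem hv'F (ann_le_Fs he p1')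
  have hzx : ¬ C S x (v' + w') := fun h => k2 ((h.add p1').of_eq rfl (add_self_add _ _))
  have t2 : Ti S (f1.prod f2) ((0, 1) : E) (v' + w') := by
    refine ⟨⟨?_, d + w, ?_, p2.symm⟩, ?_⟩
    · show (f1 (v' + w'), f2 (v' + w')) = 0
      rw [f10 _ hzF, map_add, k3, hx2 w' p1']; rfl
    · show (f1 (d + w), f2 (d + w)) = (0, 1)
      rw [map_add, map_add, f10 d hd, f2d, hx1 w p1, hx2 w p1]; rfl
    · rintro j hj0 hj1 ⟨-, w2, hw2, hcw⟩
      have hw2F : w2 ∈ Fs S he x := Fs_nb hzF hzx (Nb.of hcw)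
      have e2 : f1 w2 = 0 := f10 w2 hw2F
      have e3 : (f1 w2, f2 w2) = j := hw2
      rw [e2] at e3
      rcases (zv (a := f2 w2)) with h | h
      · rw [h] at e3; exact hj0 e3.symm
      · rw [h] at e3; exact hj1 e3.symm
  exact X.R2 (i := (1, 0)) (j := (0, 1)) (by decide) (by decide) (by decide) t1 t2

/-- the `N_z` containing `F` form a chain -/
theorem chainF [Finite V] (he : S.e = 0) {z z' : V} (hz : C S x z) (hz' : C S x z')
    (hF : Fs S he x ≤ Nz S x z) (hF' : Fs S he x ≤ Nz S x z') :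
    Nz S x z ≤ Nz S x z' ∨ Nz S x z' ≤ Nz S x z := by
  by_contra hc
  push Not at hc
  obtain ⟨a, ha, ha'⟩ := exists_of_not_le hc.1
  obtain ⟨b, hb, hb'⟩ := exists_of_not_le hc.2
  obtain ⟨f1, f1a, f10⟩ := exists_functional ha'
  obtain ⟨f2, f2b, f20⟩ := exists_functional hb'
  have hx1 : ∀ y, C S x y → f1 y = 0 := fun y hy => f10 y (annx_le_Nz z' hy)
  have hx2 : ∀ y, C S x y → f2 y = 0 := fun y hy => f20 y (annx_le_Nz z hy)
  have f2a : f2 a = 0 := f20 a (ann_le_Nz z ha)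
  have f1b : f1 b = 0 := f10 b (ann_le_Nz z' hb)
  have X := rk2_of_Fs he f1 f2 (fun y hy => f10 y (hF' hy)) hx2 ⟨a, f1a, f2a⟩ ⟨b, f2b⟩
  have t1 : Ti S (f1.prod f2) ((1, 0) : E) z := by
    refine ⟨⟨?_, a, ?_, ha⟩, ?_⟩
    · show (f1 z, f2 z) = 0
      rw [hx1 z hz, hx2 z hz]; rfl
    · show (f1 a, f2 a) = (1, 0)
      rw [f1a, f2a]
    · rintro j hj0 hj1 ⟨-, w, hw, hcw⟩
      have e2 : f2 w = 0 := f20 w (ann_le_Nz z hcw)
      have e3 : (f1 w, f2 w) = j := hw
      rw [e2] at e3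
      rcases (zv (a := f1 w)) with h | h
      · rw [h] at e3; exact hj0 e3.symm
      · rw [h] at e3; exact hj1 e3.symm
  have t2 : Ti S (f1.prod f2) ((0, 1) : E) z' := by
    refine ⟨⟨?_, b, ?_, hb⟩, ?_⟩
    · show (f1 z', f2 z') = 0
      rw [hx1 z' hz', hx2 z' hz']; rfl
    · show (f1 b, f2 b) = (0, 1)
      rw [f1b, f2b]
    · rintro j hj0 hj1 ⟨-, w, hw, hcw⟩
      have e2 : f1 w = 0 := f10 w (ann_le_Nz z' hcw)
      have e3 : (f1 w, f2 w) = j := hw
      rw [e2] at e3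
      rcases (zv (a := f2 w)) with h | h
      · rw [h] at e3; exact hj0 e3.symm
      · rw [h] at e3; exact hj1 e3.symm
  exact X.R2 (i := (1, 0)) (j := (0, 1)) (by decide) (by decide) (by decide) t1 t2

/-- two functionals separating `w ∉ V_x` and giving a form of rank two -/
theorem exists_pair (he : S.e = 0) (hr : ∃ a b, ¬ C S x a ∧ ¬ C S x b ∧ ¬ C S x (a + b))
    (hF : Fs S he x ≠ ⊤) {w : V} (hc : ¬ C S x w) :
    ∃ f1 f2 : V →ₗ[ZMod 2] ZMod 2, Rk2 S (f1.prod f2) ∧ (∀ y, C S x y → f1 y = 0) ∧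
      (∀ y, C S x y → f2 y = 0) ∧ (f1 w, f2 w) ≠ (0 : E) := by
  by_cases hw : w ∈ Fs S he x
  · -- `w ∈ F`
    obtain ⟨b, hb⟩ : ∃ b, b ∉ Fs S he x := by
      by_contra h
      push Not at h
      exact hF (eq_top_iff.2 fun v _ => h v)
    obtain ⟨f1, f1b, f10⟩ := exists_functional hb
    obtain ⟨f2, f2w, f20⟩ := exists_functional (p := S.ann x) hc
    have hx1 : ∀ y, C S x y → f1 y = 0 := fun y hy => f10 y (ann_le_Fs he hy)
    have hx2 : ∀ y, C S x y → f2 y = 0 := fun y hy => f20 y hy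
    refine ⟨f1, f2, rk2_of_Fs he f1 f2 f10 hx2 ?_ ⟨w, f2w⟩, hx1, hx2, ?_⟩
    · rcases (zv (a := f2 b)) with h | h
      · exact ⟨b, f1b, h⟩
      · exact ⟨b + w, by rw [map_add, f1b, f10 w hw, add_zero],
          by rw [map_add, h, f2w]; decide⟩
    · intro h
      have h4 : f2 w = 0 := congrArg Prod.snd h
      rw [f2w] at h4
      exact absurd h4 (by decide)
  · -- `w ∉ F`
    obtain ⟨b, hb⟩ : ∃ b, b ∉ S.ann x ⊔ Submodule.span (ZMod 2) {w} := by
      by_contra hb
      push Not at hb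
      obtain ⟨a, b, h1, h2, h3⟩ := hr
      have key : ∀ y, ¬ C S x y → C S x (y + w) := by
        intro y hy
        obtain ⟨u, hu, v, hv, huv⟩ := Submodule.mem_sup.1 (hb y)
        obtain ⟨k, rfl⟩ := Submodule.mem_span_singleton.1 hv
        rcases (zv (a := k)) with rfl | rfl
        · rw [zero_smul, add_zero] at huv
          rw [← huv] at hy
          exact absurd hu hy
        · rw [one_smul] at huv
          rw [← huv, add_self_add]
          exact hu
      apply h3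
      exact ((key a h1).add (key b h2)).of_eq rfl (eo (by abel_nf; simp [ch2, ch3, ch4]))
    obtain ⟨f2, f2b, f20⟩ := exists_functional hb
    obtain ⟨f1, f1w, f10⟩ := exists_functional hw
    have hx1 : ∀ y, C S x y → f1 y = 0 := fun y hy => f10 y (ann_le_Fs he hy)
    have hx2 : ∀ y, C S x y → f2 y = 0 := fun y hy => f20 y (Submodule.mem_sup_left hy)
    have f2w : f2 w = 0 := f20 w (Submodule.mem_sup_right (Submodule.mem_span_singleton_self w))
    refine ⟨f1, f2, rk2_of_Fs he f1 f2 f10 hx2 ⟨w, f1w, f2w⟩ ⟨b, f2b⟩, hx1, hx2, ?_⟩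
    intro h
    have h4 : f1 w = 0 := congrArg Prod.fst h
    rw [f1w] at h4
    exact absurd h4 (by decide)

/-- if `V_t + V_x = V` then `V_(x+t)` is contained in `V_x`. -/
theorem ann_add_leF (he : S.e = 0) (hr : ∃ a b, ¬ C S x a ∧ ¬ C S x b ∧ ¬ C S x (a + b))
    (hF : Fs S he x ≠ ⊤) {t : V} (ht : C S x t) (hN : Nz S x t = ⊤) {w : V}
    (hw : C S (x + t) w) : C S x w := by
  by_contra hc
  obtain ⟨f1, f2, X, hx1, hx2, hne⟩ := exists_pair he hr hF hc
  have hT : t ∈ X.T := by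
    intro i
    obtain ⟨v, hv⟩ := X.sur i
    have hvN : v ∈ Nz S x t := by rw [hN]; trivial
    obtain ⟨v1, hv1, v2, hv2, rfl⟩ := Submodule.mem_sup.1 hvN
    refine ⟨?_, v1, ?_, hv1⟩
    · show (f1 t, f2 t) = 0
      rw [hx1 t ht, hx2 t ht]; rfl
    · have : (f1.prod f2) v2 = 0 := by
        show (f1 v2, f2 v2) = 0
        rw [hx1 v2 hv2, hx2 v2 hv2]; rfl
      rw [map_add, this, add_zero] at hv
      exact hv
  have hxx : C S x x := C.self he x
  have h0 : ∀ w, C S x w → (f1.prod f2) w = 0 := by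
    intro w hw
    show (f1 w, f2 w) = 0
    rw [hx1 w hw, hx2 w hw]; rfl
  exact hne (X.T0_add (h0 x hxx) h0 hT w hw)

/-- **A rigid class gives a prime functional.** -/
theorem prime_of_rigid [Finite V] (he : S.e = 0)
    (hr : ∃ a b, ¬ C S x a ∧ ¬ C S x b ∧ ¬ C S x (a + b)) (hg : ∃ e, Rg S x e) :
    ∃ φ : V →ₗ[ZMod 2] ZMod 2, φ ≠ 0 ∧ (∀ y, C S x y → φ y = 0) ∧
      ∀ p p', (∃ v, C S p v ∧ φ v = 1) → (∃ v, C S p' v ∧ φ v = 1) →
        (∃ v, C S (p + p') v ∧ φ v = 1) → ∃ v, C S p v ∧ C S p' v ∧ φ v = 1 := by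
  classical
  have hxx : C S x x := C.self he x
  have hF : Fs S he x ≠ ⊤ := by
    intro h
    obtain ⟨e, h1⟩ := hg
    have : e ∈ Fs S he x := by rw [h]; trivial
    exact this h1
  -- the largest proper subspace in the chain
  obtain ⟨M, hM1, hM2, hM3⟩ : ∃ M : Submodule (ZMod 2) V, M ≠ ⊤ ∧ Fs S he x ≤ M ∧
      ∀ z, C S x z → Nz S x z ≠ ⊤ → Nz S x z ≤ M := by
    by_cases hne : ∃ z, C S x z ∧ Nz S x z ≠ ⊤ ∧ Fs S he x ≤ Nz S x z
    · obtain ⟨z0, ⟨hz0, hz0top, hz0F⟩, hmax⟩ : ∃ z0, (C S x z0 ∧ Nz S x z0 ≠ ⊤ ∧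
          Fs S he x ≤ Nz S x z0) ∧ ∀ z, (C S x z ∧ Nz S x z ≠ ⊤ ∧ Fs S he x ≤ Nz S x z) →
            Module.finrank (ZMod 2) (Nz S x z) ≤ Module.finrank (ZMod 2) (Nz S x z0) := by
        have hfin : {z : V | C S x z ∧ Nz S x z ≠ ⊤ ∧ Fs S he x ≤ Nz S x z}.Finite :=
          Set.toFinite _
        obtain ⟨z0, h1, h2⟩ := hfin.exists_maximalFor
          (fun z => Module.finrank (ZMod 2) (Nz S x z)) _ hne
        refine ⟨z0, h1, fun z hz => ?_⟩
        by_contra hc
        push Not at hc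
        exact absurd (h2 hz hc.le) (not_le.2 hc)
      refine ⟨Nz S x z0, hz0top, hz0F, fun z hz hzt => ?_⟩
      by_cases hzF : Fs S he x ≤ Nz S x z
      · rcases chainF he hz hz0 hzF hz0F with h | h
        · exact h
        · exact (Submodule.eq_of_le_of_finrank_le h (hmax z ⟨hz, hzt, hzF⟩)).ge
      · refine le_trans (sup_le (fun a ha => ?_) (fun a ha => ann_le_Fs he ha)) hz0F
        by_contra haF
        exact hzF (Fs_le_Nz he hz ha haF)
    · refine ⟨Fs S he x, hF, le_rfl, fun z hz hzt => ?_⟩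
      refine sup_le (fun a ha => ?_) (fun a ha => ann_le_Fs he ha)
      by_contra haF
      exact hne ⟨z, hz, hzt, Fs_le_Nz he hz ha haF⟩
  obtain ⟨v0, hv0⟩ : ∃ v, v ∉ M := by
    by_contra hc
    push Not at hc
    exact hM1 (eq_top_iff.2 fun v _ => hc v)
  obtain ⟨φ, hφ1, hφ0⟩ := exists_functional hv0
  have hφF : ∀ y ∈ Fs S he x, φ y = 0 := fun y hy => hφ0 y (hM2 hy)
  have hφx : ∀ y, C S x y → φ y = 0 := fun y hy => hφF y (ann_le_Fs he hy)
  have hfull : ∀ t, C S x t → (∃ v, C S t v ∧ φ v = 1) → Nz S x t = ⊤ := by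
    rintro t ht ⟨v, hv, hv1⟩
    by_contra hc
    have := hφ0 v (hM3 t ht hc (ann_le_Nz t hv))
    rw [hv1] at this
    exact absurd this (by decide)
  -- elements outside `ker φ` are rigid
  have hrig : ∀ u, φ u = 1 → Rg S x u := by
    intro u hu
    apply rg_of_not (he := he)
    intro h
    rw [hφF u h] at hu
    exact absurd hu (by decide)
  -- values outside `V_x`
  have hout : ∀ p, ¬ C S x p → (∃ v, C S p v ∧ φ v = 1) → φ p = 1 := by
    rintro p hp ⟨v, hv, hv1⟩
    rcases (hrig v hv1).2 p (Nb.of hv.symm) with h | h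
    · exact absurd h hp
    · have := hφx _ h
      rw [map_add, hv1] at this
      exact eo (V := ZMod 2) this
  -- a value of `x` is a value of `x + t`
  have hval : ∀ t b, C S x t → Nz S x t = ⊤ → ∃ u, C S t u ∧ S.q x u = S.q x b ∧
      S.q (x + t) u = S.q x b := by
    intro t b ht hN
    have hb : b ∈ Nz S x t := by rw [hN]; trivial
    obtain ⟨u, hu, u2, hu2, rfl⟩ := Submodule.mem_sup.1 hb
    have e1 : S.q x u = S.q x (u + u2) :=
      q_eq (C.of_eq (S := S) (x := x) (y := u2) hu2 rfl (eo (by abel_nf; simp [ch2, ch3, ch4])))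
    refine ⟨u, hu, e1, ?_⟩
    rw [← e1]
    exact q_eq' (C.of_eq (S := S) (x := t) (y := u) hu (eo (by abel_nf; simp [ch2, ch3, ch4])) rfl)
  -- the mixed case
  have hmix : ∀ t u, C S x t → ¬ C S x u → (∃ v, C S t v ∧ φ v = 1) → φ u = 1 →
      ∃ v, C S t v ∧ C S u v ∧ φ v = 1 := by
    intro t u ht hu htv hu1
    have hN := hfull t ht htv
    obtain ⟨u1, k1, k2, k3⟩ := hval t u ht hN
    have e0 : S.q u x = S.q x u := S.symm _ _
    obtain ⟨s, g1, g2⟩ := S.link _ _ _ _ (k3.trans e0.symm)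
    have g1' : S.q (x + t) s = S.q x u := g1.symm.trans k3
    have g2' : C S u (s + x) := q_eq_iff.1 g2.symm
    rcases (hrig u hu1).2 _ (Nb.of g2') with h | h
    · -- impossible
      exfalso
      have hxs : C S x s := (h.add hxx).of_eq rfl (add_self_add s x)
      have e1 : S.q (x + t) s = S.q t s :=
        q_eq' (hxs.of_eq (eo (by abel_nf; simp [ch2, ch3, ch4])) rfl)
      obtain ⟨y, m1, m2, m3⟩ := link (g1'.symm.trans e1)
      have hxy : C S x y := ann_add_leF he hr hF ht hN m3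
      exact hu ((m1.add hxy).of_eq rfl (add_self_add u y))
    · have hs : φ (s + x) = 1 := by
        have := hφx _ h
        rw [map_add, hu1] at this
        exact eo (V := ZMod 2) this
      refine ⟨s + x, ?_, g2', hs⟩
      have e1 : C S x (u + s) :=
        (h.add hxx).of_eq rfl (eo (by abel_nf; simp [ch2, ch3, ch4]))
      have e2 : S.q x u = S.q x s := q_eq e1
      have e3 : C S t s :=
        (q_eq'_iff.1 (g1'.trans e2)).of_eq (eo (by abel_nf; simp [ch2, ch3, ch4])) rfl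
      exact e3.add ht.symm
  refine ⟨φ, ?_, hφx, ?_⟩
  · intro h
    rw [h, LinearMap.zero_apply] at hφ1
    exact absurd hφ1 (by decide)
  intro p p' hp hp' hpp
  by_cases h1 : C S x p
  · by_cases h2 : C S x p'
    · -- everything inside `V_x`
      have N1 := hfull p h1 hp
      have N2 := hfull p' h2 hp'
      obtain ⟨u, a1, a2, a3⟩ := hval p v0 h1 N1
      obtain ⟨u', b1, b2, b3⟩ := hval p' v0 h2 N2
      obtain ⟨y, g1, g2⟩ := S.link _ _ _ _ (a3.trans b3.symm)
      have c1 : C S (x + p) (u + y) := q_eq_iff.1 g1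
      have c2 : C S x (u + y) := ann_add_leF he hr hF h1 N1 c1
      have c3 : S.q x y = S.q x v0 := (q_eq_iff.2 c2).symm.trans a2
      have c4 : C S x (y + v0) := q_eq_iff.1 c3
      have c5 : φ y = 1 := by
        have := hφx _ c4
        rw [map_add, hφ1] at this
        exact eo (V := ZMod 2) this
      have c6 : C S p y :=
        (q_eq'_iff.1 ((g1.symm.trans a3).trans c3.symm)).of_eq
          (eo (by abel_nf; simp [ch2, ch3, ch4])) rfl
      have c7 : C S p' y :=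
        (q_eq'_iff.1 ((g2.symm.trans b3).trans c3.symm)).of_eq
          (eo (by abel_nf; simp [ch2, ch3, ch4])) rfl
      exact ⟨y, c6, c7, c5⟩
    · exact hmix p p' h1 h2 hp (hout p' h2 hp')
  · by_cases h2 : C S x p'
    · obtain ⟨v, a, b, c⟩ := hmix p' p h2 h1 hp' (hout p h1 hp)
      exact ⟨v, b, a, c⟩
    · by_cases h3 : C S x (p + p')
      · obtain ⟨v, a, b, c⟩ := hmix (p + p') p h3 h1 hpp (hout p h1 hp)
        refine ⟨v, b, ?_, c⟩
        exact (a.add' b).of_eq (eo (by abel_nf; simp [ch2, ch3, ch4])) rfl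
      · exfalso
        have e1 := hout p h1 hp
        have e2 := hout p' h2 hp'
        have e3 := hout _ h3 hpp
        rw [map_add, e1, e2] at e3
        exact absurd e3 (by decide)

end Pool.Agent.LSS
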