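import Pool.Agent.LSS.WOff
import Pool.Agent.LSS.Rigid

/-!
The consequence of Theorem LS and of the theorem on rigid classes, set valued.
-/

set_option autoImplicit false
set_option linter.unusedSectionVars false
set_option linter.unusedSimpArgs false

namespace Pool.Agent.LSS

open ETC Pool.Agent.ETCP
open Pool.Agent.Helper58.PLine (QData)

variable {V Q : Type} [AddCommGroup V] [Module (ZMod 2) V] {S : QData V Q}

/-- `x` is a slot of `c` -/
def SlQ (S : QData V Q) (c : Q) (x : V) : Prop := ∃ y, S.q x y = c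

/-- the group `D(c)` generated by the slots of a quaternion `c` -/
def DcQ (S : QData V Q) (c : Q) (hc : ∃ x, SlQ S c x) : Submodule (ZMod 2) V where
  carrier := {v | ∃ z, SlQ S c z ∧ C S z v}
  add_mem' := by
    rintro a b ⟨z, ⟨y, hy⟩, hz⟩ ⟨z', ⟨y', hy'⟩, hz'⟩
    obtain ⟨m, h1, h2⟩ := S.link z y z' y' (by rw [hy, hy'])
    rw [hy] at h1
    rw [hy'] at h2
    have e1 : S.q (m + a) z = c := by
      rw [S.symm, h1]
      exact q_eq (hz.of_eq rfl (eo (by abel_nf; simp [ch2, ch3, ch4])))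
    have e2 : S.q (m + b) z' = c := by
      rw [S.symm, h2]
      exact q_eq (hz'.of_eq rfl (eo (by abel_nf; simp [ch2, ch3, ch4])))
    obtain ⟨n, h3, h4⟩ := S.link _ _ _ _ (e1.trans e2.symm)
    rw [e1] at h3
    rw [e2] at h4
    refine ⟨n, ⟨m + a, by rw [S.symm, ← h3]⟩, ?_⟩
    have h5 : C S n (m + a + (m + b)) := q_eq_iff.1 (by rw [S.symm n, S.symm n, ← h3, ← h4])
    exact h5.of_eq rfl (eo (by abel_nf; simp [ch2, ch3, ch4]))
  zero_mem' := by
    obtain ⟨x, hx⟩ := hc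
    exact ⟨x, hx, C.zero x⟩
  smul_mem' := by
    rintro a v ⟨z, hz, hv⟩
    rcases zm a with rfl | rfl
    · exact ⟨z, hz, by rw [zero_smul]; exact C.zero z⟩
    · exact ⟨z, hz, by rw [one_smul]; exact hv⟩

theorem DcQ_ann {c : Q} {hc : ∃ x, SlQ S c x} {z v : V} (hz : SlQ S c z)
    (hv : C S z v) : v ∈ DcQ S c hc := ⟨z, hz, hv⟩

theorem DcQ_sl (he : S.e = 0) {c : Q} {hc : ∃ x, SlQ S c x} {x : V} (hx : SlQ S c x) :
    x ∈ DcQ S c hc := ⟨x, hx, C.self he x⟩

/-- the group generated by the slots -/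
theorem DcQ_eq_span (he : S.e = 0) (c : Q) (hc : ∃ x, SlQ S c x) :
    DcQ S c hc = Submodule.span (ZMod 2) {x | SlQ S c x} := by
  apply le_antisymm
  · rintro v ⟨z, ⟨y, hy⟩, hv⟩
    have h1 : SlQ S c (y + v) := by
      refine ⟨z, ?_⟩
      rw [S.symm, ← hy]
      exact q_eq (hv.of_eq rfl (eo (by abel_nf; simp [ch2, ch3, ch4])))
    have h2 : SlQ S c y := ⟨z, by rw [S.symm, hy]⟩
    have e : v = y + (y + v) := by rw [← add_assoc, ZModModule.add_self, zero_add]
    rw [e]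
    exact add_mem (Submodule.subset_span h2) (Submodule.subset_span h1)
  · exact Submodule.span_le.2 fun x hx => DcQ_sl he hx

/-- restriction of the data to a subspace -/
def resW (S : QData V Q) (D' : Submodule (ZMod 2) V) : WData D' Q where
  q x y := S.q x y
  z := S.z
  symm x y := S.symm x y
  add x y w := S.add x y w
  addc _ _ _ _ _ _ h h' := ETC.add_common h h'

/-- **Local saturation.** -/
theorem exists_slotQ [Finite V] (he : S.e = 0) (c : Q) (hc0 : c ≠ S.z) (hc : ∃ x, SlQ S c x)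
    (hs : Submodule.span (ZMod 2) {v | v ∈ DcQ S c hc ∧ ¬ SlQ S c v} ≠ DcQ S c hc) :
    ∃ (x : V) (φ : D V), SlQ S c x ∧ (∃ v ∈ DcQ S c hc, φ v = 1) ∧
      ∀ v ∈ DcQ S c hc, (φ v = 0 → C S x v) ∧ (φ v = 1 → S.q x v = c) := by
  classical
  obtain ⟨v1, hv1, hv1'⟩ : ∃ v ∈ DcQ S c hc,
      v ∉ Submodule.span (ZMod 2) {v | v ∈ DcQ S c hc ∧ ¬ SlQ S c v} := by
    by_contra hcon
    push Not at hcon
    exact hs (le_antisymm (Submodule.span_le.2 fun v hv => hv.1) hcon)
  obtain ⟨φ, hφ1, hφ0⟩ := exists_dual_sep hv1'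
  let D' := DcQ S c hc
  let φ' : D D' := φ.comp D'.subtype
  have hφ' : ∀ a : D', φ' a = φ a := fun a => rfl
  have hL : WLoc (resW S D') φ' c := by
    refine ⟨hc0, ?_, ?_, ?_⟩
    · intro h0
      have := LinearMap.congr_fun h0 ⟨v1, hv1⟩
      rw [hφ', LinearMap.zero_apply] at this
      change φ v1 = 0 at this
      rw [hφ1] at this
      exact one_ne_zero this
    · intro x hx
      have h1 : SlQ S c (x : V) := by
        by_contra h1
        have := hφ0 x (Submodule.subset_span ⟨x.2, h1⟩)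
        rw [hφ', this] at hx
        exact zero_ne_one hx
      obtain ⟨y, hy⟩ := h1
      exact ⟨⟨y, DcQ_sl he ⟨x, by rw [S.symm, hy]⟩⟩, hy⟩
    · rintro z ⟨y, hy⟩ w a b hab
      obtain ⟨t, h1, h2⟩ := S.link (z : V) a w b hab
      have hz : SlQ S c (z : V) := ⟨y, hy⟩
      have ht : t ∈ D' := by
        have h3 : C S (z : V) (a + t) := q_eq_iff.1 h1
        have h4 : t = (a + (a + t) : V) := by
          rw [← add_assoc, ZModModule.add_self, zero_add]
        rw [h4]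
        exact add_mem a.2 (DcQ_ann hz h3)
      exact ⟨⟨t, ht⟩, h1.symm, by
        show S.q w t = S.q z a
        rw [← h2]
        exact hab.symm⟩
  obtain ⟨t, ht⟩ := local_saturationW hL
  have ht0 : ∀ v ∈ D', φ v = 0 → C S t v := by
    intro v hv h0
    have := ht ⟨v, hv⟩
    rw [al0 (show φ' ⟨v, hv⟩ = 0 from h0)] at this
    exact C.symm this
  have ht1 : ∀ v ∈ D', φ v = 1 → S.q t v = c := by
    intro v hv h0
    have := ht ⟨v, hv⟩
    rw [al1 (show φ' ⟨v, hv⟩ = 1 from h0)] at this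
    rw [S.symm]
    exact this
  exact ⟨t, φ, ⟨v1, ht1 v1 hv1 hφ1⟩, ⟨v1, hv1, hφ1⟩, fun v hv => ⟨ht0 v hv, ht1 v hv⟩⟩

/-- an element of rank one or a prime functional -/
theorem rank_one_or_primeQ [Finite V] (he : S.e = 0) (c : Q) (hc0 : c ≠ S.z)
    (hc : ∃ x, SlQ S c x)
    (hs : Submodule.span (ZMod 2) {v | v ∈ DcQ S c hc ∧ ¬ SlQ S c v} ≠ DcQ S c hc) :
    (∃ x, x ≠ 0 ∧ ∀ v w, C S x v ∨ C S x w ∨ C S x (v + w)) ∨
    ∃ φ : V →ₗ[ZMod 2] ZMod 2, φ ≠ 0 ∧
      ∀ p p', (∃ v, C S p v ∧ φ v = 1) → (∃ v, C S p' v ∧ φ v = 1) →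
        (∃ v, C S (p + p') v ∧ φ v = 1) → ∃ v, C S p v ∧ C S p' v ∧ φ v = 1 := by
  classical
  obtain ⟨x, φ, hx, ⟨v1, hv1, hφ1⟩, hxv⟩ := exists_slotQ he c hc0 hc hs
  have hxv1 : S.q x v1 = c := (hxv v1 hv1).2 hφ1
  by_cases hr : ∃ a b, ¬ C S x a ∧ ¬ C S x b ∧ ¬ C S x (a + b)
  · right
    have hx0 : ∀ v, C S x v → v ∈ DcQ S c hc := fun v hv => DcQ_ann hx hv
    have hg : Rg S x v1 := by
      constructor
      · intro h0
        exact hc0 (hxv1.symm.trans h0)
      · rintro v ⟨w, w', hw, hw', hvw⟩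
        have a4 : SlQ S c (v1 + w) := by
          refine ⟨x, ?_⟩
          rw [S.symm, ← hxv1]
          exact q_eq (hw.of_eq rfl (eo (by abel_nf; simp [ch2, ch3, ch4])))
        have a5 : v ∈ DcQ S c hc := by
          have e : v = (v + w') + w' := by rw [add_assoc, ZModModule.add_self, add_zero]
          rw [e]
          exact add_mem (DcQ_ann a4 hvw) (hx0 w' hw')
        rcases zm (φ v) with h0 | h0
        · exact Or.inl ((hxv v a5).1 h0)
        · right
          exact q_eq_iff.1 (((hxv v a5).2 h0).trans hxv1.symm)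
    obtain ⟨ψ, g1, -, g3⟩ := prime_of_rigid (S := S) (x := x) he hr ⟨v1, hg⟩
    exact ⟨ψ, g1, g3⟩
  · left
    push Not at hr
    refine ⟨x, ?_, fun v w => ?_⟩
    · rintro rfl
      rw [S.symm, S.q_zero] at hxv1
      exact hc0 hxv1.symm
    · by_cases h1 : C S x v
      · exact Or.inl h1
      · by_cases h2 : C S x w
        · exact Or.inr (Or.inl h2)
        · exact Or.inr (Or.inr (hr v w h1 h2))

end Pool.Agent.LSS
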