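import Pool.Agent.AST.Main
import Pool.Agent.LSS.WSpan

/-!
The slot test for quaternionic structures with `-1 = 1` (notes 1939, 1840).
-/

set_option autoImplicit false
set_option linter.unusedSectionVars false

namespace Pool.Agent.LSS

open QS Pool.Agent.RFT Pool.Agent.ETG Pool.Agent.RFN Pool.Agent.AST
open Pool.Agent.Helper58.PLine (QData)

/-- the slots of the quaternion `q (a, b)` -/
def Slots (S : QStruct) (a b : S.G) : Set S.G := {v | ∃ y, S.q v y = S.q a b}

/-- the elements of the subgroup generated by the slots of `q (a, b)` which are not slots -/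
def NonSlots (S : QStruct) (a b : S.G) : Set S.G :=
  {v | v ∈ Subgroup.closure (Slots S a b) ∧ v ∉ Slots S a b}

/-- `q` is identically zero or some quaternion `q (a, b) ≠ 0` has the following property: the
elements of the subgroup generated by its slots which are not slots generate a smaller subgroup. -/
def HasSpan (S : QStruct) : Prop :=
  (∀ a b, S.q a b = S.zero) ∨ ∃ a b, S.q a b ≠ S.zero ∧
    Subgroup.closure (NonSlots S a b) ≠ Subgroup.closure (Slots S a b)

theorem span_closure (S : QStruct) (s : Set S.G) (v : Additive S.G) :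
    v ∈ Submodule.span (ZMod 2) {x : Additive S.G | Additive.toMul x ∈ s} ↔
      Additive.toMul v ∈ Subgroup.closure s := by
  constructor
  · intro h
    induction h using Submodule.span_induction with
    | mem x hx => exact Subgroup.subset_closure hx
    | zero => exact Subgroup.one_mem _
    | add x y _ _ hx hy => exact Subgroup.mul_mem _ hx hy
    | smul a x _ hx =>
      rcases ETC.zm a with rfl | rfl
      · rw [zero_smul]; exact Subgroup.one_mem _
      · rwa [one_smul]
  · intro h
    have key : ∀ g : S.G, g ∈ Subgroup.closure s →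
        Additive.ofMul g ∈ Submodule.span (ZMod 2) {x : Additive S.G | Additive.toMul x ∈ s} := by
      intro g hg
      induction hg using Subgroup.closure_induction with
      | mem x hx => exact Submodule.subset_span hx
      | one => exact Submodule.zero_mem _
      | mul x y _ _ hx hy => exact Submodule.add_mem _ hx hy
      | inv x _ hx => exact Submodule.neg_mem _ hx
    exact key _ h

/-- **The slot test.** -/
theorem top_span (S : QStruct) [Finite S.G] (hneg : S.neg = 1)
    (hT : ∀ T : QStruct, Finite T.G → T.neg = 1 → Nat.card T.G < Nat.card S.G → ElemType T)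
    (h : HasSpan S) : ElemType S := by
  by_contra hS
  have hET : ¬ ETZ (ZS S) := fun h' => hS (h' S (qof S hneg))
  have hLZ := lzs S hneg
  have hsm := smaller S hT
  obtain ⟨h1, -⟩ := RED (Additive S.G) (ZS S) hLZ hsm hET
  rcases h with h | ⟨a, b, hab, hs⟩
  · -- `q = 0`
    apply hS
    apply ElemType.L0
    rw [Nat.card_eq_one_iff_unique]
    refine ⟨⟨fun x y => ?_⟩, ⟨1⟩⟩
    have key : ∀ x : S.G, x = 1 := fun x =>
      h1 (Additive.ofMul x) fun v w => Or.inl (h _ _)
    rw [key x, key y]
  · set D := toD S hneg with hD'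
    have he : D.e = 0 := rfl
    have hc0 : S.q a b ≠ D.z := hab
    have hSl : ∀ x : Additive S.G, SlQ D (S.q a b) x ↔ Additive.toMul x ∈ Slots S a b := by
      intro x
      constructor
      · rintro ⟨y, hy⟩
        exact ⟨Additive.toMul y, hy⟩
      · rintro ⟨y, hy⟩
        exact ⟨Additive.ofMul y, hy⟩
    have hcs : ∃ x, SlQ D (S.q a b) x := ⟨Additive.ofMul a, Additive.ofMul b, rfl⟩
    have hD : ∀ x : Additive S.G, x ∈ DcQ D (S.q a b) hcs ↔
        Additive.toMul x ∈ Subgroup.closure (Slots S a b) := by
      intro x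
      rw [DcQ_eq_span he, ← span_closure]
      have : {x | SlQ D (S.q a b) x} = {x : Additive S.G | Additive.toMul x ∈ Slots S a b} :=
        Set.ext fun x => hSl x
      rw [this]
    have hN : ∀ x : Additive S.G,
        x ∈ Submodule.span (ZMod 2) {v | v ∈ DcQ D (S.q a b) hcs ∧ ¬ SlQ D (S.q a b) v} ↔
        Additive.toMul x ∈ Subgroup.closure (NonSlots S a b) := by
      intro x
      rw [← span_closure]
      have : {v | v ∈ DcQ D (S.q a b) hcs ∧ ¬ SlQ D (S.q a b) v} =
          {x : Additive S.G | Additive.toMul x ∈ NonSlots S a b} := by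
        ext x
        exact and_congr (hD x) (not_congr (hSl x))
      rw [this]
    have hs' : Submodule.span (ZMod 2) {v | v ∈ DcQ D (S.q a b) hcs ∧ ¬ SlQ D (S.q a b) v} ≠
        DcQ D (S.q a b) hcs := by
      intro h0
      apply hs
      ext g
      have e1 := hN (Additive.ofMul g)
      have e2 := hD (Additive.ofMul g)
      rw [h0] at e1
      exact e1.symm.trans e2
    rcases rank_one_or_primeQ he (S.q a b) hc0 hcs hs' with ⟨x, hx, hx'⟩ | ⟨φ, hφ0, hφ⟩
    · exact hx (h1 x hx')
    · exact hET (ASZ (Additive S.G) (ZS S) hLZ hsm ⟨φ, hφ0, hφ⟩)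

/-! ### Structures of elementary type pass the test -/

/-- a criterion -/
theorem ne_of {S : QStruct} {a b : S.G}
    (h : ¬ Subgroup.closure (Slots S a b) ≤ Subgroup.closure (NonSlots S a b)) :
    Subgroup.closure (NonSlots S a b) ≠ Subgroup.closure (Slots S a b) := fun h' => h h'.ge

theorem non_le {S : QStruct} {a b : S.G} :
    Subgroup.closure (NonSlots S a b) ≤ Subgroup.closure (Slots S a b) := by
  rw [Subgroup.closure_le]
  exact fun v hv => hv.1

/-- transfer along a homomorphism with a section -/
theorem transfer {S T : QStruct} {a b : S.G} {c d : T.G} (π : T.G →* S.G) (ι : S.G →* T.G)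
    (hπι : ∀ v, π (ι v) = v) (h1 : ∀ v ∈ Slots S a b, ι v ∈ Slots T c d)
    (h2 : ∀ v, v ∈ Slots T c d → π v ∈ Slots S a b)
    (h3 : ∀ v ∈ Subgroup.closure (Slots T c d), π v ∈ Slots S a b → v ∈ Slots T c d)
    (h : Subgroup.closure (NonSlots S a b) ≠ Subgroup.closure (Slots S a b)) :
    Subgroup.closure (NonSlots T c d) ≠ Subgroup.closure (Slots T c d) := by
  intro h0
  apply h
  apply le_antisymm non_le
  have e1 : Subgroup.map π (Subgroup.closure (Slots T c d)) ≤
      Subgroup.closure (Slots S a b) := by
    rw [MonoidHom.map_closure, Subgroup.closure_le]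
    rintro _ ⟨v, hv, rfl⟩
    exact Subgroup.subset_closure (h2 v hv)
  have e2 : Subgroup.map π (Subgroup.closure (NonSlots T c d)) ≤
      Subgroup.closure (NonSlots S a b) := by
    rw [MonoidHom.map_closure, Subgroup.closure_le]
    rintro _ ⟨v, hv, rfl⟩
    exact Subgroup.subset_closure ⟨e1 ⟨v, hv.1, rfl⟩, fun h' => hv.2 (h3 v hv.1 h')⟩
  have e3 : Subgroup.map ι (Subgroup.closure (Slots S a b)) ≤
      Subgroup.closure (Slots T c d) := by
    rw [MonoidHom.map_closure, Subgroup.closure_le]
    rintro _ ⟨v, hv, rfl⟩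
    exact Subgroup.subset_closure (h1 v hv)
  intro v hv
  have h4 : ι v ∈ Subgroup.closure (NonSlots T c d) := by
    rw [h0]
    exact e3 ⟨v, hv, rfl⟩
  have h5 := e2 ⟨ι v, h4, rfl⟩
  rwa [hπι] at h5

theorem span_transport {S T : QStruct} (h : Iso S T) (hx : HasSpan S) : HasSpan T := by
  obtain ⟨e, -, h1⟩ := h
  have hz : ∀ a b, S.q a b = S.zero ↔ T.q (e a) (e b) = T.zero := by
    intro a b
    have := h1 a b 1 1
    rwa [S.q_one, map_one, T.q_one] at this
  rcases hx with hx | ⟨a, b, hab, hx⟩
  · left
    intro a b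
    obtain ⟨a, rfl⟩ := e.surjective a
    obtain ⟨b, rfl⟩ := e.surjective b
    exact (hz a b).1 (hx a b)
  · right
    refine ⟨e a, e b, fun h => hab ((hz a b).2 h), ?_⟩
    have hs : ∀ v, v ∈ Slots S a b ↔ e v ∈ Slots T (e a) (e b) := by
      intro v
      constructor
      · rintro ⟨y, hy⟩
        exact ⟨e y, (h1 _ _ _ _).1 hy⟩
      · rintro ⟨y, hy⟩
        obtain ⟨y, rfl⟩ := e.surjective y
        exact ⟨y, (h1 _ _ _ _).2 hy⟩
    refine transfer e.symm.toMonoidHom e.toMonoidHom (fun v => e.symm_apply_apply v)
      (fun v hv => (hs v).1 hv) (fun v hv => (hs _).2 ?_) (fun v _ hv => ?_) hx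
    · show e (e.symm v) ∈ _
      rwa [e.apply_symm_apply]
    · have : e (e.symm v) ∈ _ := (hs _).1 hv
      rwa [e.apply_symm_apply] at this

theorem span_prod_left {S T : QStruct} {a b : S.G} (hab : S.q a b ≠ S.zero)
    (hx : Subgroup.closure (NonSlots S a b) ≠ Subgroup.closure (Slots S a b)) :
    HasSpan (QS.prod S T) := by
  right
  have hs : ∀ v : (QS.prod S T).G, v ∈ Slots (QS.prod S T) (a, 1) (b, 1) ↔ v.1 ∈ Slots S a b := by
    intro v
    constructor
    · rintro ⟨y, hy⟩
      exact ⟨y.1, congrArg Prod.fst hy⟩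
    · rintro ⟨y, hy⟩
      refine ⟨(y, 1), Prod.ext hy ?_⟩
      show T.q v.2 1 = T.q 1 1
      rw [T.q_one, T.q_one]
  refine ⟨(a, 1), (b, 1), fun h => hab (congrArg Prod.fst h), ?_⟩
  refine transfer (MonoidHom.fst S.G T.G) (MonoidHom.inl S.G T.G) (fun v => rfl)
    (fun v hv => (hs _).2 hv) (fun v hv => (hs v).1 hv) (fun v _ hv => (hs v).2 hv) hx

theorem span_prod_right {S T : QStruct} {a b : T.G} (hab : T.q a b ≠ T.zero)
    (hx : Subgroup.closure (NonSlots T a b) ≠ Subgroup.closure (Slots T a b)) :
    HasSpan (QS.prod S T) := by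
  right
  have hs : ∀ v : (QS.prod S T).G, v ∈ Slots (QS.prod S T) (1, a) (1, b) ↔ v.2 ∈ Slots T a b := by
    intro v
    constructor
    · rintro ⟨y, hy⟩
      exact ⟨y.2, congrArg Prod.snd hy⟩
    · rintro ⟨y, hy⟩
      refine ⟨(1, y), Prod.ext ?_ hy⟩
      show S.q v.1 1 = S.q 1 1
      rw [S.q_one, S.q_one]
  refine ⟨(1, a), (1, b), fun h => hab (congrArg Prod.snd h), ?_⟩
  refine transfer (MonoidHom.snd S.G T.G) (MonoidHom.inr S.G T.G) (fun v => rfl)
    (fun v hv => (hs _).2 hv) (fun v hv => (hs v).1 hv) (fun v _ hv => (hs v).2 hv) hx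

theorem ext_q_iff (S : QStruct) (u v w z : (QS.ext S).G) :
    (QS.ext S).q u v = (QS.ext S).q w z ↔ extMap S u v = extMap S w z := Subtype.ext_iff

theorem span_ext {S : QStruct} (hneg : S.neg = 1) (hx : HasSpan S) : HasSpan (QS.ext S) := by
  rcases hx with hx | ⟨a, b, hab, hx⟩
  · by_cases hg : ∃ g : S.G, g ≠ 1
    · obtain ⟨g, hg⟩ := hg
      right
      set X : Multiplicative (ZMod 2) := Multiplicative.ofAdd 1 with hX
      have hXne : X ≠ 1 := by decide
      have hslot : ∀ v : S.G, ((v, X) : (QS.ext S).G) ∈ Slots (QS.ext S) (g, 1) (1, X) := by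
        intro v
        refine ⟨(g, 1), (ext_q_iff S _ _ _ _).2 ?_⟩
        rw [extMap_x_one, extMap_one_x, hx, hx]
      refine ⟨(g, 1), (1, X), ?_, ?_⟩
      · intro h
        have h' := (ext_zero_iff S (g, 1) (1, X)).1 h
        rw [extMap_one_x] at h'
        exact hg (congrArg Prod.snd h')
      · intro h0
        have h1 : ((1, X) : (QS.ext S).G) ∈
            Subgroup.closure (Slots (QS.ext S) (g, 1) (1, X)) :=
          Subgroup.subset_closure (hslot 1)
        rw [← h0] at h1
        have h2 : Subgroup.closure (NonSlots (QS.ext S) (g, 1) (1, X)) ≤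
            (MonoidHom.snd S.G (Multiplicative (ZMod 2))).ker := by
          refine (Subgroup.closure_le _).2 ?_
          rintro ⟨v, ε⟩ hv
          show ε = 1
          rcases two_cases ε with rfl | rfl
          · rfl
          · exact absurd (hslot v) hv.2
        exact hXne (h2 h1)
    · left
      push Not at hg
      rintro ⟨u, α⟩ ⟨v, β⟩
      refine (ext_zero_iff S _ _).2 ?_
      rw [hg u, hg v]
      exact Prod.ext (by show S.q 1 1 = S.zero; rw [S.q_one]) (by simp [extMap, hneg])
  · right
    have hs : ∀ v : (QS.ext S).G, v ∈ Slots (QS.ext S) (a, 1) (b, 1) ↔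
        v.2 = 1 ∧ v.1 ∈ Slots S a b := by
      rintro ⟨v, ε⟩
      constructor
      · rintro ⟨⟨y, δ⟩, hy⟩
        replace hy := (ext_q_iff S _ _ _ _).1 hy
        rw [extMap_one_one] at hy
        rcases two_cases ε with rfl | rfl <;> rcases two_cases δ with rfl | rfl
        · rw [extMap_one_one] at hy
          exact ⟨rfl, y, congrArg Prod.fst hy⟩
        · exfalso
          rw [extMap_one_x] at hy
          have h1 : v = 1 := congrArg Prod.snd hy
          have h2 : S.q v y = S.q a b := congrArg Prod.fst hy
          rw [h1, S.qs2, S.q_one] at h2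
          exact hab h2.symm
        · exfalso
          rw [extMap_x_one] at hy
          have h1 : y = 1 := congrArg Prod.snd hy
          have h2 : S.q v y = S.q a b := congrArg Prod.fst hy
          rw [h1, S.q_one] at h2
          exact hab h2.symm
        · exfalso
          rw [extMap_x_x] at hy
          have h1 : S.neg * v * y = 1 := congrArg Prod.snd hy
          have h2 : S.q v y = S.q a b := congrArg Prod.fst hy
          rw [hneg, one_mul, ← eq_iff_mul] at h1
          have h3 := S.qs1 v
          rw [hneg, one_mul] at h3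
          rw [← h1, h3] at h2
          exact hab h2.symm
      · rintro ⟨h1, y, hy⟩
        change ε = 1 at h1
        subst h1
        refine ⟨(y, 1), (ext_q_iff S _ _ _ _).2 ?_⟩
        rw [extMap_one_one, extMap_one_one]
        exact Prod.ext hy rfl
    refine ⟨(a, 1), (b, 1), ?_, ?_⟩
    · intro h
      have h' := (ext_zero_iff S (a, 1) (b, 1)).1 h
      rw [extMap_one_one] at h'
      exact hab (congrArg Prod.fst h')
    · refine transfer (T := QS.ext S) (MonoidHom.fst S.G (Multiplicative (ZMod 2)))
        (MonoidHom.inl S.G (Multiplicative (ZMod 2))) (fun v => rfl)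
        (fun v hv => (hs _).2 ⟨rfl, hv⟩) (fun v hv => ((hs v).1 hv).2) (fun v hv' hv => ?_) hx
      refine (hs v).2 ⟨?_, hv⟩
      have h2 : Subgroup.closure (Slots (QS.ext S) (a, 1) (b, 1)) ≤
          (MonoidHom.snd S.G (Multiplicative (ZMod 2))).ker :=
        (Subgroup.closure_le _).2 fun v hv => ((hs v).1 hv).1
      exact h2 hv'

theorem elem_span {S : QStruct} (h : ElemType S) : S.neg = 1 → HasSpan S := by
  induction h with
  | L0 S h =>
    intro _
    left
    have := (Nat.card_eq_one_iff_unique.1 h).1
    intro a b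
    rw [Subsingleton.elim b 1, S.q_one]
  | L10 S h h1 h2 => exact fun _ => Or.inl h2
  | L11 S h h1 h2 => exact fun _ => Or.inl h2
  | L1 S h h1 h2 => exact fun h => absurd h h1
  | loc S hf h h1 h2 =>
    intro _
    by_cases h0 : ∀ a b, S.q a b = S.zero
    · exact Or.inl h0
    right
    push Not at h0
    obtain ⟨a, b, hab⟩ := h0
    refine ⟨a, b, hab, ?_⟩
    have hf : Finite S.Q := Nat.finite_of_card_ne_zero (by rw [h2]; norm_num)
    have hval : ∀ β : S.Q, β ≠ S.zero → β = S.q a b := by
      intro β hβ
      by_contra hne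
      have h3 : 3 ≤ Nat.card S.Q := by
        classical
        have := Fintype.ofFinite S.Q
        rw [Nat.card_eq_fintype_card]
        have h4 : ({S.zero, S.q a b, β} : Finset S.Q).card = 3 := by
          rw [Finset.card_insert_of_notMem, Finset.card_insert_of_notMem,
            Finset.card_singleton]
          · simpa using fun h => hne h.symm
          · simp only [Finset.mem_insert, Finset.mem_singleton, not_or]
            exact ⟨fun h => hab h.symm, fun h => hβ h.symm⟩
        rw [← h4]
        exact Finset.card_le_univ _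
      omega
    have hslot : ∀ v : S.G, v ≠ 1 → v ∈ Slots S a b := by
      intro v hv
      by_contra hc
      apply hv
      apply h1
      intro y
      by_contra hy
      exact hc ⟨y, hval _ hy⟩
    intro h3
    have h4 : Subgroup.closure (NonSlots S a b) = ⊥ := by
      rw [eq_bot_iff, Subgroup.closure_le]
      intro v hv
      by_contra hc
      exact hv.2 (hslot v hc)
    rw [h4] at h3
    have h5 : a ∈ Subgroup.closure (Slots S a b) := Subgroup.subset_closure ⟨b, rfl⟩
    rw [← h3, Subgroup.mem_bot] at h5
    rw [h5, S.qs2, S.q_one] at hab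
    exact hab rfl
  | prod S T _ _ ihS ihT =>
    intro hneg
    have h1 : S.neg = 1 := congrArg Prod.fst hneg
    have h2 : T.neg = 1 := congrArg Prod.snd hneg
    rcases ihS h1 with hS | ⟨a, b, hab, hx⟩
    · rcases ihT h2 with hT | ⟨a, b, hab, hx⟩
      · exact Or.inl fun a b => Prod.ext (hS _ _) (hT _ _)
      · exact span_prod_right hab hx
    · exact span_prod_left hab hx
  | ext S _ ih =>
    intro hneg
    have h1 : S.neg = 1 := congrArg Prod.fst hneg
    exact span_ext h1 (ih h1)
  | iso S T h1 _ ih =>
    intro hneg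
    obtain ⟨e, he, he'⟩ := h1
    exact span_transport ⟨e, he, he'⟩ (ih (e.injective (by rw [he, hneg, map_one])))

/-- The slot test: (1) minimal counterexamples fail it, (2) the conjecture for `-1 = 1` is
equivalent to the statement that all finite structures pass it. -/
theorem final :
    (∀ S : QStruct, Finite S.G → S.neg = 1 → (∀ T : QStruct, Finite T.G → T.neg = 1 →
      Nat.card T.G < Nat.card S.G → ElemType T) → HasSpan S → ElemType S) ∧
    ((∀ S : QStruct, Finite S.G → S.neg = 1 → ElemType S) ↔
      ∀ S : QStruct, Finite S.G → S.neg = 1 → HasSpan S) := by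
  have h1 : ∀ S : QStruct, Finite S.G → S.neg = 1 → (∀ T : QStruct, Finite T.G → T.neg = 1 →
      Nat.card T.G < Nat.card S.G → ElemType T) → HasSpan S → ElemType S :=
    fun S hf hneg hT h => top_span S hneg hT h
  exact ⟨h1, fun h S hf hneg => elem_span (h S hf hneg) hneg,
    fun h => all_of h1 fun S hf hneg _ => h S hf hneg⟩

end Pool.Agent.LSS
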