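import Pool.Agent.ETCISO.Prime

/-!
Rigid classes modulo `V_x` (notes 1840, 1939).

`Nb x u v`: some elements of `u + V_x` and `v + V_x` commute.  This relation is biadditive
(`Nb.add`).  A class `e` is rigid if `e ≈ v` only for `v ∈ V_x` or `v ∈ e + V_x`.  The classes
which are not rigid form a subgroup (`bp`).
-/

set_option autoImplicit false
set_option linter.unusedSimpArgs false
set_option linter.unusedVariables false
set_option linter.unusedSectionVars false

namespace Pool.Agent.LSS

open Pool.Agent.Helper58.PLine (QData exists_functional add_self_add)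
open Pool.Agent.ETCP Pool.Agent.ETCISO

variable {V Q : Type} [AddCommGroup V] [Module (ZMod 2) V]

/-- some elements of `u + V_x` and `v + V_x` commute -/
def Nb (S : QData V Q) (x u v : V) : Prop :=
  ∃ w w', C S x w ∧ C S x w' ∧ C S (u + w) (v + w')

variable {S : QData V Q} {x : V}

theorem Nb.symm {u v : V} (h : Nb S x u v) : Nb S x v u := by
  obtain ⟨w, w', h1, h2, h3⟩ := h
  exact ⟨w', w, h2, h1, h3.symm⟩

theorem Nb.of {u v : V} (h : C S u v) : Nb S x u v :=
  ⟨0, 0, C.zero x, C.zero x, h.of_eq (add_zero u).symm (add_zero v).symm⟩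

theorem Nb.self (he : S.e = 0) (u : V) : Nb S x u u := Nb.of (C.self he u)

theorem Nb.congr {u v u' v' : V} (h : Nb S x u v) (hu : C S x (u + u')) (hv : C S x (v + v')) :
    Nb S x u' v' := by
  obtain ⟨w, w', h1, h2, h3⟩ := h
  refine ⟨u + u' + w, v + v' + w', hu.add h1, hv.add h2, h3.of_eq ?_ ?_⟩ <;>
    exact eo (by abel_nf; simp [ch2, ch3, ch4])

theorem Nb.cr {u v v' : V} (h : Nb S x u v) (hv : C S x (v + v')) : Nb S x u v' :=
  h.congr ((C.zero x).of_eq rfl (eo (by abel_nf; simp [ch2, ch3, ch4]))) hv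

theorem Nb.of_eq {u v u' v' : V} (h : Nb S x u v) (hu : u = u') (hv : v = v') : Nb S x u' v' := by
  rw [← hu, ← hv]; exact h

theorem Nb.of_ann {u v : V} (h : C S x v) : Nb S x u v :=
  ⟨0, v, C.zero x, h, (C.zero u).of_eq (add_zero u).symm (ZModModule.add_self v).symm⟩

/-- the relation is additive -/
theorem Nb.add (he : S.e = 0) {u v v' : V} (h : Nb S x u v) (h' : Nb S x u v') :
    Nb S x u (v + v') := by
  obtain ⟨w1, w1', a1, a1', c1⟩ := h
  obtain ⟨w2, w2', a2, a2', c2⟩ := h'
  have hxx : C S x x := C.self he x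
  have e1 : S.q x (u + w1) = S.q x u :=
    q_eq (a1.of_eq rfl (eo (by abel_nf; simp [ch2, ch3, ch4])))
  have e2 : S.q x (u + w2) = S.q x u :=
    q_eq (a2.of_eq rfl (eo (by abel_nf; simp [ch2, ch3, ch4])))
  have e3 : S.q (x + (v + w1')) (u + w1) = S.q x u :=
    (q_eq' (c1.symm.of_eq (eo (by abel_nf; simp [ch2, ch3, ch4])) rfl)).trans e1
  have e4 : S.q (x + (v' + w2')) (u + w2) = S.q x u :=
    (q_eq' (c2.symm.of_eq (eo (by abel_nf; simp [ch2, ch3, ch4])) rfl)).trans e2
  obtain ⟨z, b1, b2, b3⟩ := link (e3.trans e4.symm)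
  -- `z` has the value `q x u` and commutes with `d = v + w1' + v' + w2'`
  have b3' : C S (v + w1' + (v' + w2')) z :=
    b3.of_eq (eo (by abel_nf; simp [ch2, ch3, ch4])) rfl
  have e5 : S.q z (x + (v + w1')) = S.q x u := by
    rw [S.symm, ← q_eq b1, e3]
  obtain ⟨m, d1, d2, d3⟩ := link e5.symm
  have e6 : S.q (m + (v + w1' + (v' + w2'))) z = S.q x u := by
    have f1 : S.q (m + (v + w1' + (v' + w2'))) z = S.q m z :=
      q_eq' (b3'.of_eq (eo (by abel_nf; simp [ch2, ch3, ch4])) rfl)
    rw [f1, S.symm, ← q_eq d2, e5]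
  obtain ⟨n, g1, g2, g3⟩ := link e6.symm
  refine ⟨u + n, x + (u + m) + (u + n) + w1' + w2', g1,
    (((hxx.add d1).add g1).add a1').add a2', ?_⟩
  have g4 : C S n (x + (m + (v + w1' + (v' + w2'))) + n) := g3.symm.add (C.self he n)
  exact g4.of_eq (eo (by abel_nf; simp [ch2, ch3, ch4])) (eo (by abel_nf; simp [ch2, ch3, ch4]))

/-- the first link -/
theorem claim1 {a u t y : V} (hau : C S a u) (hby : C S (a + t) y)
    (ht : ∀ v, C S t v → C S x v ∨ C S x (v + t)) :
    Nb S x (t + u + y) y ∨ Nb S x (t + u + y) (y + t) := by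
  have e1 : S.q t y = S.q a y :=
    q_eq' (hby.of_eq (add_comm a t) rfl)
  have e2 : S.q a y = S.q a (u + y) :=
    q_eq (hau.of_eq rfl (eo (by abel_nf; simp [ch2, ch3, ch4])))
  obtain ⟨s, h1, h2, h3⟩ := link ((e1.trans e2).trans (S.symm a (u + y)))
  have h4 : Nb S x (t + u + y) s := Nb.of (h3.of_eq (by abel) rfl)
  rcases ht _ h1 with h | h
  · exact Or.inl (h4.cr (h.of_eq rfl (add_comm y s)))
  · exact Or.inr (h4.cr (h.of_eq rfl (by abel)))

/-- `e` is a rigid class -/
def Rg (S : QData V Q) (x e : V) : Prop :=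
  ¬ C S x e ∧ ∀ v, Nb S x e v → C S x v ∨ C S x (v + e)

theorem Rg.congr {e e' : V} (h : Rg S x e) (he : C S x (e + e')) : Rg S x e' := by
  constructor
  · intro h'
    exact h.1 ((he.add h').of_eq rfl (add_self_add e e'))
  · intro v hv
    have he' : C S x (e' + e) := he.of_eq rfl (add_comm _ _)
    rcases h.2 v (hv.symm.cr he').symm with h1 | h1
    · exact Or.inl h1
    · right
      exact (h1.add he).of_eq rfl (eo (by abel_nf; simp [ch2, ch3, ch4]))

theorem bp_core (he : S.e = 0) {a u t y : V} (hau : C S a u) (hby : C S (a + t) y)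
    (ht : Rg S x t) (ha : ¬ C S x a) (hat : ¬ C S x (a + t)) (hu : ¬ C S x u)
    (hua : ¬ C S x (u + a)) (hy : ¬ C S x y) (hyb : ¬ C S x (y + (a + t))) : False := by
  have hrt : ∀ v, C S t v → C S x v ∨ C S x (v + t) := fun v h => ht.2 v (Nb.of h)
  have sf : ∀ w, Nb S x w w := fun w => Nb.self he w
  have K0 : ¬ Nb S x t a := by
    intro h
    rcases ht.2 a h with h1 | h1
    · exact ha h1
    · exact hat h1
  have Nau : Nb S x a u := Nb.of hau
  have Nby : Nb S x (a + t) y := Nb.of hby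
  have K1 : ¬ Nb S x t (a + u) := by
    intro h
    rcases ht.2 _ h with h1 | h1
    · exact hua (h1.of_eq rfl (add_comm _ _))
    · have h2 : Nb S x a (a + t) := Nau.cr (h1.of_eq rfl (by abel))
      have h3 : Nb S x a t := ((sf a).add he h2).of_eq rfl
        (eo (by abel_nf; simp [ch2, ch3, ch4]))
      exact K0 h3.symm
  have K2 : ¬ Nb S x t y := by
    intro h
    rcases ht.2 _ h with h1 | h1
    · exact hy h1
    · have h2 : Nb S x (a + t) t := Nby.cr h1
      have h3 : Nb S x t a := (h2.symm.add he (sf t)).of_eq rfl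
        (eo (by abel_nf; simp [ch2, ch3, ch4]))
      exact K0 h3
  have K3 : ¬ Nb S x t (y + (a + t)) := by
    intro h
    rcases ht.2 _ h with h1 | h1
    · exact hyb h1
    · have h2 : Nb S x (a + t) a :=
        Nby.cr (h1.of_eq rfl (eo (by abel_nf; simp [ch2, ch3, ch4])))
      have h3 : Nb S x a t := (h2.symm.add he (sf a)).of_eq rfl
        (eo (by abel_nf; simp [ch2, ch3, ch4]))
      exact K0 h3.symm
  have K4 : ¬ Nb S x t u := by
    intro h
    rcases ht.2 _ h with h1 | h1
    · exact hu h1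
    · have h2 : Nb S x a t := Nau.cr h1
      exact K0 h2.symm
  have hby' : C S (a + t) (y + (a + t)) := hby.add (C.self he _)
  have c1 := claim1 hau hby hrt
  have c2 := claim1 hau hby' hrt
  rcases c1 with A | B
  · -- `t + u + y ≈ y`
    have m1 : Nb S x y (t + u + (y + (a + t))) :=
      (A.symm.add he Nby.symm).of_eq rfl (by abel)
    rcases c2 with A' | B'
    · have m2 : Nb S x (t + u + (y + (a + t))) (a + t) :=
        (m1.symm.add he A').of_eq rfl (eo (by abel_nf; simp [ch2, ch3, ch4]))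
      have m3 : Nb S x (a + t) (a + u) :=
        (m2.symm.add he Nby).of_eq rfl (eo (by abel_nf; simp [ch2, ch3, ch4]))
      have m4 : Nb S x a (a + u) := (sf a).add he Nau
      exact K1 ((m3.symm.add he m4.symm).of_eq rfl
        (eo (by abel_nf; simp [ch2, ch3, ch4]))).symm
    · have m2 : Nb S x (t + u + (y + (a + t))) a :=
        (m1.symm.add he B').of_eq rfl (eo (by abel_nf; simp [ch2, ch3, ch4]))
      have m3 : Nb S x a y :=
        ((m2.symm.add he (sf a)).add he Nau).of_eq rfl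
          (eo (by abel_nf; simp [ch2, ch3, ch4]))
      exact K2 ((m3.symm.add he Nby.symm).of_eq rfl
        (eo (by abel_nf; simp [ch2, ch3, ch4]))).symm
  · -- `t + u + y ≈ y + t`
    have n1 : Nb S x (t + u + y) u :=
      (B.add he (sf _)).of_eq rfl (eo (by abel_nf; simp [ch2, ch3, ch4]))
    have n2 : Nb S x u (t + y) :=
      (n1.symm.add he (sf u)).of_eq rfl (eo (by abel_nf; simp [ch2, ch3, ch4]))
    rcases c2 with A' | B'
    · have n3 : Nb S x u (y + (a + t)) := (n2.add he Nau.symm).of_eq rfl (by abel)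
      exact K3 (((n3.symm.add he A'.symm).add he (sf _)).of_eq rfl
        (eo (by abel_nf; simp [ch2, ch3, ch4]))).symm
    · have n3 : Nb S x (y + a) u :=
        ((B'.symm.of_eq (eo (by abel_nf; simp [ch2, ch3, ch4])) rfl).add he
          (sf (y + a))).of_eq rfl (eo (by abel_nf; simp [ch2, ch3, ch4]))
      have n4 : Nb S x u y := (n3.symm.add he Nau.symm).of_eq rfl
        (eo (by abel_nf; simp [ch2, ch3, ch4]))
      exact K4 ((n4.add he n2).of_eq rfl (eo (by abel_nf; simp [ch2, ch3, ch4]))).symm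

/-- if `t` is rigid, one of `a`, `a + t` is -/
theorem bp (he : S.e = 0) {a t : V} (ht : Rg S x t) (ha : ¬ C S x a) (hat : ¬ C S x (a + t)) :
    Rg S x a ∨ Rg S x (a + t) := by
  by_contra hc
  push Not at hc
  obtain ⟨h1, h2⟩ := hc
  unfold Rg at h1 h2
  push Not at h1 h2
  obtain ⟨u, ⟨w1, w1', p1, p1', p2⟩, hu, hua⟩ := h1 ha
  obtain ⟨y, ⟨w2, w2', r1, r1', r2⟩, hy, hya⟩ := h2 hat
  have hsub : ∀ {v w : V}, ¬ C S x v → C S x w → ¬ C S x (v + w) := fun h h' h'' =>
    h ((h''.add h').of_eq rfl (add_self_add _ _))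
  refine bp_core he (x := x) (a := a + w1) (u := u + w1') (t := t + (w1 + w2)) (y := y + w2') p2
    (r2.of_eq (eo (by abel_nf; simp [ch2, ch3, ch4])) rfl) (ht.congr ?_) (hsub ha p1) ?_
    (hsub hu p1') ?_ (hsub hy r1') ?_
  · exact (p1.add r1).of_eq rfl (eo (by abel_nf; simp [ch2, ch3, ch4]))
  · intro h
    exact hsub hat r1 (h.of_eq rfl (eo (by abel_nf; simp [ch2, ch3, ch4])))
  · intro h
    exact hsub hua (p1'.add p1) (h.of_eq rfl (by abel))
  · intro h
    exact hsub hya (r1'.add r1) (h.of_eq rfl (eo (by abel_nf; simp [ch2, ch3, ch4])))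

/-- the classes that are not rigid -/
def Fs (S : QData V Q) (he : S.e = 0) (x : V) : Submodule (ZMod 2) V where
  carrier := {e | ¬ Rg S x e}
  add_mem' := by
    intro a b ha hb h
    by_cases h1 : C S x a
    · exact hb (h.congr (h1.of_eq rfl (eo (by abel_nf; simp [ch2, ch3, ch4]))))
    by_cases h2 : C S x b
    · exact ha (h.congr (h2.of_eq rfl (eo (by abel_nf; simp [ch2, ch3, ch4]))))
    have e : a + (a + b) = b := eo (by abel_nf; simp [ch2, ch3, ch4])
    rcases bp he h h1 (by rw [e]; exact h2) with h3 | h3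
    · exact ha h3
    · rw [e] at h3
      exact hb h3
  zero_mem' := fun h => h.1 (C.zero x)
  smul_mem' := by
    intro c v hv
    rcases Pool.Agent.Helper58.PLine.zm c with rfl | rfl
    · rw [zero_smul]; exact fun h => h.1 (C.zero x)
    · rwa [one_smul]

end Pool.Agent.LSS
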