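import Pool.Agent.LSS.LS
import Pool.Agent.LSS.Rigid
import Pool.Agent.RFT.Bridge

/-!
The consequence of Theorem LS and of the theorem on rigid classes: if the elements of the group
`D(c)` generated by the slots of a symbol `c ≠ 0` which are not slots do not generate `D(c)`, there
is an element of rank one or a prime functional.
-/

set_option autoImplicit false
set_option linter.unusedSectionVars false

namespace Pool.Agent.LSS

open ETC Pool.Agent.RFT

variable {V B : Type} [AddCommGroup V] [Module (ZMod 2) V] [AddCommGroup B] [Module (ZMod 2) B]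

/-- Theorem LS without finiteness of `B` -/
theorem local_saturation' [Finite V] {q : V →ₗ[ZMod 2] V →ₗ[ZMod 2] B} {φ : D V} {c : B}
    (h : Loc q φ c) : ∃ t, φ t = 0 ∧ ∀ v, q t v = φ v • c := by
  classical
  let P : Submodule (ZMod 2) B := Submodule.span (ZMod 2) (Set.range fun p : V × V => q p.1 p.2)
  have hfin : Module.Finite (ZMod 2) P :=
    Module.Finite.span_of_finite (ZMod 2) (Set.finite_range _)
  have : Finite P := Module.finite_of_finite (ZMod 2)
  have hm : ∀ x y, q x y ∈ P := fun x y => Submodule.subset_span ⟨(x, y), rfl⟩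
  let q' : V →ₗ[ZMod 2] V →ₗ[ZMod 2] P := LinearMap.mk₂ (ZMod 2) (fun x y => ⟨q x y, hm x y⟩)
    (fun a b y => Subtype.ext (by simp)) (fun a b y => Subtype.ext (by simp))
    (fun a b y => Subtype.ext (by simp)) (fun a b y => Subtype.ext (by simp))
  have hq' : ∀ x y, ((q' x y : P) : B) = q x y := fun x y => rfl
  obtain ⟨x0, hx0⟩ : ∃ x, φ x = 1 := by
    by_contra hc
    push Not at hc
    exact h.φne (LinearMap.ext fun v => (zm (φ v)).resolve_right (hc v))
  obtain ⟨y0, hy0⟩ := h.sl x0 hx0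
  have hcP : c ∈ P := by rw [← hy0]; exact hm x0 y0
  have hL : Loc q' φ (⟨c, hcP⟩ : P) := by
    refine ⟨fun x => Subtype.ext (h.alt x), fun h0 => h.cne (congrArg Subtype.val h0), h.φne,
      fun x hx => ?_, ?_⟩
    · obtain ⟨y, hy⟩ := h.sl x hx
      exact ⟨y, Subtype.ext hy⟩
    · rintro z ⟨y, hy⟩ w a b hab
      obtain ⟨t, h1, h2⟩ := h.lk z ⟨y, congrArg Subtype.val hy⟩ w a b (congrArg Subtype.val hab)
      exact ⟨t, Subtype.ext h1, Subtype.ext h2⟩
  obtain ⟨t, h1, h2⟩ := local_saturation hL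
  refine ⟨t, h1, fun v => ?_⟩
  have := congrArg Subtype.val (h2 v)
  exact this

/-- `x` is a slot of `c` -/
def Sl (q : V →ₗ[ZMod 2] V →ₗ[ZMod 2] B) (c : B) (x : V) : Prop := ∃ y, q x y = c

variable {q : V →ₗ[ZMod 2] V →ₗ[ZMod 2] B}

/-- the group `D(c)` generated by the slots of a symbol `c` -/
def Dc (h : LinkedAlt q) (c : B) (hc : ∃ x, Sl q c x) : Submodule (ZMod 2) V where
  carrier := {v | ∃ z, Sl q c z ∧ q z v = 0}
  add_mem' := by
    rintro a b ⟨z, ⟨y, hy⟩, hz⟩ ⟨z', ⟨y', hy'⟩, hz'⟩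
    -- a common slot `m` of `z` and `z'`
    obtain ⟨m, h1, h2⟩ := h.link z y z' y' (by rw [hy, hy'])
    rw [hy] at h1 h2
    -- `m + a` and `m + b` are slots of `c`
    have e1 : q (m + a) z = c := by rw [h.symm, map_add, h1, hz, add_zero]
    have e2 : q (m + b) z' = c := by rw [h.symm, map_add, h2, hz', add_zero]
    obtain ⟨n, h3, h4⟩ := h.link _ _ _ _ (e1.trans e2.symm)
    rw [e1] at h3 h4
    refine ⟨n, ⟨m + a, by rw [h.symm, h3]⟩, ?_⟩
    rw [h.symm] at h3 h4
    rw [map_add] at h3 h4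
    have h5 : q n m + q n a + (q n m + q n b) = 0 := by rw [h3, h4, ZModModule.add_self]
    rw [add_add_add_comm, ZModModule.add_self, zero_add] at h5
    rw [map_add, h5]
  zero_mem' := by
    obtain ⟨x, hx⟩ := hc
    exact ⟨x, hx, map_zero _⟩
  smul_mem' := by
    rintro a v ⟨z, hz, hv⟩
    exact ⟨z, hz, by rw [map_smul, hv, smul_zero]⟩

theorem Dc_sl {h : LinkedAlt q} {c : B} {hc : ∃ x, Sl q c x} {x : V} (hx : Sl q c x) :
    x ∈ Dc h c hc := ⟨x, hx, h.alt x⟩

theorem Dc_ann {h : LinkedAlt q} {c : B} {hc : ∃ x, Sl q c x} {z v : V} (hz : Sl q c z)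
    (hv : q z v = 0) : v ∈ Dc h c hc := ⟨z, hz, hv⟩

theorem Sl.val {h : LinkedAlt q} {c : B} {x y : V} (hxy : q x y = c) : Sl q c y :=
  ⟨x, by rw [h.symm, hxy]⟩

/-- the group generated by the slots -/
theorem Dc_eq_span (h : LinkedAlt q) (c : B) (hc : ∃ x, Sl q c x) :
    Dc h c hc = Submodule.span (ZMod 2) {x | Sl q c x} := by
  apply le_antisymm
  · rintro v ⟨z, ⟨y, hy⟩, hv⟩
    have h1 : Sl q c (y + v) := ⟨z, by rw [h.symm, map_add, hy, hv, add_zero]⟩
    have h2 : Sl q c y := ⟨z, by rw [h.symm, hy]⟩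
    have e : v = y + (y + v) := by rw [← add_assoc, ZModModule.add_self, zero_add]
    rw [e]
    exact add_mem (Submodule.subset_span h2) (Submodule.subset_span h1)
  · exact Submodule.span_le.2 fun x hx => Dc_sl hx

/-- **Local saturation for linked maps.** -/
theorem exists_slot [Finite V] (h : LinkedAlt q) (c : B) (hc0 : c ≠ 0) (hc : ∃ x, Sl q c x)
    (hs : Submodule.span (ZMod 2) {v | v ∈ Dc h c hc ∧ ¬ Sl q c v} ≠ Dc h c hc) :
    ∃ (x : V) (φ : D V), Sl q c x ∧ (∃ v ∈ Dc h c hc, φ v = 1) ∧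
      ∀ v ∈ Dc h c hc, q x v = φ v • c := by
  classical
  obtain ⟨v1, hv1, hv1'⟩ : ∃ v ∈ Dc h c hc,
      v ∉ Submodule.span (ZMod 2) {v | v ∈ Dc h c hc ∧ ¬ Sl q c v} := by
    by_contra hcon
    push Not at hcon
    exact hs (le_antisymm (Submodule.span_le.2 fun v hv => hv.1) hcon)
  obtain ⟨φ, hφ1, hφ0⟩ := exists_dual_sep hv1'
  let D' := Dc h c hc
  let q' : D' →ₗ[ZMod 2] D' →ₗ[ZMod 2] B := q.domRestrict₁₂ D' D'
  let φ' : D D' := φ.comp D'.subtype
  have hq' : ∀ a b : D', q' a b = q a b := fun a b => rfl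
  have hφ' : ∀ a : D', φ' a = φ a := fun a => rfl
  have hL : Loc q' φ' c := by
    refine ⟨fun x => h.alt x, hc0, ?_, ?_, ?_⟩
    · intro h0
      have := LinearMap.congr_fun h0 ⟨v1, hv1⟩
      rw [hφ', LinearMap.zero_apply] at this
      change φ v1 = 0 at this
      rw [hφ1] at this
      exact one_ne_zero this
    · intro x hx
      have h1 : Sl q c (x : V) := by
        by_contra h1
        have := hφ0 x (Submodule.subset_span ⟨x.2, h1⟩)
        rw [hφ', this] at hx
        exact zero_ne_one hx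
      obtain ⟨y, hy⟩ := h1
      exact ⟨⟨y, Dc_sl ⟨x, by rw [h.symm, hy]⟩⟩, hy⟩
    · rintro z ⟨y, hy⟩ w a b hab
      obtain ⟨t, h1, h2⟩ := h.link (z : V) a w b hab
      have hz : Sl q c (z : V) := ⟨y, hy⟩
      have ht : t ∈ D' := by
        have h3 : q (z : V) (t + a) = 0 := by rw [map_add, h1, ZModModule.add_self]
        have h4 : t = (t + a) + a := by rw [add_assoc, ZModModule.add_self, add_zero]
        rw [h4]
        exact add_mem (Dc_ann hz h3) a.2
      exact ⟨⟨t, ht⟩, h1, h2⟩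
  obtain ⟨t, -, ht⟩ := local_saturation' hL
  have ht' : ∀ v ∈ D', q t v = φ v • c := fun v hv => ht ⟨v, hv⟩
  refine ⟨t, φ, ⟨v1, ?_⟩, ⟨v1, hv1, hφ1⟩, ht'⟩
  rw [ht' v1 hv1, hφ1, one_smul]

/-- an element of rank one or a prime functional -/
theorem rank_one_or_prime [Finite V] (h : LinkedAlt q) (c : B) (hc0 : c ≠ 0)
    (hc : ∃ x, Sl q c x)
    (hs : Submodule.span (ZMod 2) {v | v ∈ Dc h c hc ∧ ¬ Sl q c v} ≠ Dc h c hc) :
    (∃ x, x ≠ 0 ∧ ∀ v w, q x v = 0 ∨ q x w = 0 ∨ q x (v + w) = 0) ∨ ∃ φ, PrimeFun q φ := by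
  classical
  obtain ⟨x, φ, hx, ⟨v1, hv1, hφ1⟩, hxv⟩ := exists_slot h c hc0 hc hs
  have hxv1 : q x v1 = c := by rw [hxv v1 hv1, hφ1, one_smul]
  by_cases hr : ∃ a b, q x a ≠ 0 ∧ q x b ≠ 0 ∧ q x (a + b) ≠ 0
  · right
    have hx0 : ∀ v, q x v = 0 → v ∈ Dc h c hc := fun v hv => Dc_ann hx hv
    have hg : Rg h.toQData x v1 := by
      constructor
      · intro h0
        have h1 : q x v1 = 0 := h0
        exact hc0 (hxv1.symm.trans h1)
      · rintro v ⟨w, w', hw, hw', hvw⟩
        have a1 : q x w = 0 := hw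
        have a2 : q x w' = 0 := hw'
        have a3 : q (v1 + w) (v + w') = 0 := hvw
        have a4 : Sl q c (v1 + w) := ⟨x, by rw [h.symm, map_add, hxv1, a1, add_zero]⟩
        have a5 : v ∈ Dc h c hc := by
          have e : v = (v + w') + w' := by rw [add_assoc, ZModModule.add_self, add_zero]
          rw [e]
          exact add_mem (Dc_ann a4 a3) (hx0 w' a2)
        have a6 := hxv v a5
        rcases zm (φ v) with h0 | h0
        · left
          show q x v = 0
          rw [a6, h0, zero_smul]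
        · right
          show q x (v + v1) = 0
          rw [map_add, a6, h0, one_smul, hxv1, ZModModule.add_self]
    obtain ⟨a, b, h1, h2, h3⟩ := hr
    obtain ⟨ψ, g1, -, g3⟩ := prime_of_rigid (S := h.toQData) (x := x) rfl ⟨a, b, h1, h2, h3⟩
      ⟨v1, hg⟩
    exact ⟨ψ, g1, g3⟩
  · left
    push Not at hr
    refine ⟨x, ?_, fun v w => ?_⟩
    · rintro rfl
      rw [map_zero, LinearMap.zero_apply] at hxv1
      exact hc0 hxv1.symm
    · by_cases h1 : q x v = 0
      · exact Or.inl h1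
      · by_cases h2 : q x w = 0
        · exact Or.inr (Or.inl h2)
        · exact Or.inr (Or.inr (hr v w h1 h2))

end Pool.Agent.LSS
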