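import Pool.Agent.ETC.QSat

/-!
Families of maps over weak quaternionic data: the set of values carries only a partial addition
of values with common slots, linkage is not assumed.  (Set valued version of Theorem LS,
note 1939; the counting follows `Pool.Agent.ETC.QSat`.)
-/

set_option autoImplicit false
set_option linter.unusedSectionVars false

namespace Pool.Agent.LSS

open Finset ETC

/-- weak quaternionic data -/
structure WData (V Q : Type) [AddCommGroup V] [Module (ZMod 2) V] where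
  q : V → V → Q
  z : Q
  symm : ∀ x y, q x y = q y x
  add : ∀ x y w, q x y = q x w ↔ q x (y + w) = z
  addc : ∀ x v s t s' t', q x s = q v t → q x s' = q v t' → q x (s + s') = q v (t + t')

namespace WData

variable {V Q : Type} [AddCommGroup V] [Module (ZMod 2) V] (S : WData V Q)

theorem q_zero (x : V) : S.q x 0 = S.z := by
  have := (S.add x 0 0).1 rfl
  rwa [add_zero] at this

/-- `V_x` -/
def ann (x : V) : Submodule (ZMod 2) V where
  carrier := {v | S.q x v = S.z}
  add_mem' := by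
    intro a b ha hb
    exact (S.add x a b).1 (by rw [ha, hb])
  zero_mem' := S.q_zero x
  smul_mem' := by
    intro c v hv
    rcases zm c with rfl | rfl
    · rw [zero_smul]; exact S.q_zero x
    · rw [one_smul]; exact hv

theorem mem_ann {x v : V} : v ∈ S.ann x ↔ S.q x v = S.z := Iff.rfl

theorem eq_iff {x v w : V} : S.q x v = S.q x w ↔ v + w ∈ S.ann x := S.add x v w

theorem eq_iff' {x y v : V} : S.q x v = S.q y v ↔ v ∈ S.ann (x + y) := by
  rw [S.symm x, S.symm y, S.add v x y, mem_ann, S.symm]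

end WData

variable {V Q Y : Type} [AddCommGroup V] [Module (ZMod 2) V] [AddCommGroup Y] [Module (ZMod 2) Y]

section
variable {S : WData V Q}

theorem q_zero_left (x : V) : S.q 0 x = S.z := by rw [S.symm, S.q_zero]

theorem add_common {x v s t s' t' : V} (h : S.q x s = S.q v t) (h' : S.q x s' = S.q v t') :
    S.q x (s + s') = S.q v (t + t') := S.addc _ _ _ _ _ _ h h'

variable (S) in
/-- a family of maps `g η : V → Q`, `g η x = q (x, w x η)`, additive in `η` and compatible with
sums of pairs of elements of `V` -/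
structure Fam (w : V → Y →ₗ[ZMod 2] V) : Prop where
  cons : ∀ x x', ∃ l : Y →ₗ[ZMod 2] V, ∀ η, S.q x (w x η) = S.q x (l η) ∧
    S.q x' (w x' η) = S.q x' (l η) ∧ S.q (x + x') (w (x + x') η) = S.q (x + x') (l η)

variable (S) in
/-- the maps of the family -/
def gg (w : V → Y →ₗ[ZMod 2] V) (η : Y) (x : V) : Q := S.q x (w x η)

variable (S) in
/-- the family is linked at `η`, `η'` -/
def LkQ (w : V → Y →ₗ[ZMod 2] V) (η η' : Y) : Prop :=
  ∀ x x', gg S w η x = gg S w η' x' → ∃ t, gg S w η t = gg S w η x ∧ gg S w η' t = gg S w η x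

variable {w : V → Y →ₗ[ZMod 2] V}

theorem gg_zero (η : Y) : gg S w η 0 = S.z := q_zero_left _

theorem gg_add (η η' : Y) (x : V) : gg S w (η + η') x = S.z ↔ gg S w η x = gg S w η' x := by
  unfold gg
  rw [map_add, S.add]

theorem Fam.eq_iff (hw : Fam S w) (η : Y) (x x' : V) :
    gg S w η x = gg S w η x' ↔ gg S w η (x + x') = S.z := by
  obtain ⟨l, h⟩ := hw.cons x x'
  obtain ⟨h1, h2, h3⟩ := h η
  unfold gg
  rw [h1, h2, h3, S.eq_iff']
  rfl

/-- the subspace of all `η` with `g η x = 0` -/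
def Vx (S : WData V Q) (w : V → Y →ₗ[ZMod 2] V) (x : V) : Submodule (ZMod 2) Y :=
  (S.ann x).comap (w x)

theorem mem_Vx {x : V} {η : Y} : η ∈ Vx S w x ↔ gg S w η x = S.z := Iff.rfl

/-- `η` such that `g η x` is a value of `g y` -/
def Wx (hw : Fam S w) (x : V) (y : Y) : Submodule (ZMod 2) Y where
  carrier := {η | ∃ t, gg S w η x = gg S w y t}
  add_mem' := by
    rintro η η' ⟨t, ht⟩ ⟨t', ht'⟩
    refine ⟨t + t', ?_⟩
    obtain ⟨l, h⟩ := hw.cons t t'
    obtain ⟨h1, h2, h3⟩ := h y
    unfold gg at ht ht' ⊢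
    rw [h3, map_add, S.symm (t + t')]
    apply add_common
    · rw [ht, h1, S.symm]
    · rw [ht', h2, S.symm]
  zero_mem' := ⟨0, by
    rw [gg_zero]
    unfold gg
    rw [map_zero, S.q_zero]⟩
  smul_mem' := by
    rintro a η ⟨t, ht⟩
    rcases zm a with rfl | rfl
    · refine ⟨0, ?_⟩
      rw [zero_smul, gg_zero]
      unfold gg
      rw [map_zero, S.q_zero]
    · exact ⟨t, by rw [one_smul, ht]⟩

section counting
variable [Fintype V]

variable (S w) in
/-- number of zeros -/
noncomputable def cc (η : Y) : ℤ := ∑ x : V, ind (gg S w η x = S.z)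

variable (S w) in
/-- number of coincidences -/
noncomputable def AA (η η' : Y) : ℤ := ∑ x : V, ∑ x' : V, ind (gg S w η x = gg S w η' x')

variable (S w) in
/-- number of common zeros -/
noncomputable def ZZ (η η' : Y) : ℤ := ∑ x : V, ind (gg S w η x = S.z ∧ gg S w η' x = S.z)

variable (S w) in
/-- number of linked pairs -/
noncomputable def LL (η η' : Y) : ℤ :=
  ∑ x : V, ∑ x' : V, ind (∃ t, gg S w η t = gg S w η x ∧ gg S w η' t = gg S w η' x' ∧
    gg S w η t = gg S w η' t)

theorem cc_pos (η : Y) : 0 < cc S w η := by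
  unfold cc
  apply Finset.sum_pos' (fun v _ => ind_nonneg _)
  exact ⟨0, Finset.mem_univ _, by rw [ind_true (gg_zero η)]; exact one_pos⟩

theorem ZZ_pos (η η' : Y) : 0 < ZZ S w η η' := by
  unfold ZZ
  apply Finset.sum_pos' (fun v _ => ind_nonneg _)
  exact ⟨0, Finset.mem_univ _, by rw [ind_true ⟨gg_zero η, gg_zero η'⟩]; exact one_pos⟩

theorem sum_eq_cc (hw : Fam S w) (η : Y) (t : V) :
    ∑ x : V, ind (gg S w η t = gg S w η x) = cc S w η := by
  symm
  apply sum_ind_shift _ _ t
  intro v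
  rw [hw.eq_iff, add_comm]

theorem LL_mul (hw : Fam S w) (η η' : Y) :
    LL S w η η' * ZZ S w η η' = cc S w η * cc S w η' * cc S w (η + η') := by
  have h1 : cc S w η * cc S w η' * cc S w (η + η') = ∑ t : V, ∑ x : V, ∑ x' : V,
      ind (gg S w η t = gg S w η x ∧ gg S w η' t = gg S w η' x' ∧
        gg S w η t = gg S w η' t) := by
    conv_lhs => rw [mul_comm]; arg 1; unfold cc
    rw [Finset.sum_mul]
    apply Finset.sum_congr rfl
    intro t _
    rw [← sum_eq_cc hw η t, ← sum_eq_cc hw η' t, Finset.sum_mul_sum, Finset.mul_sum]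
    apply Finset.sum_congr rfl
    intro x _
    rw [Finset.mul_sum]
    apply Finset.sum_congr rfl
    intro x' _
    rw [ind_and, ind_and, ind_congr (gg_add η η' t)]
    ring
  rw [h1, Finset.sum_comm, LL, Finset.sum_mul]
  apply Finset.sum_congr rfl
  intro x _
  rw [Finset.sum_comm, Finset.sum_mul]
  apply Finset.sum_congr rfl
  intro x' _
  by_cases h : ∃ t, gg S w η t = gg S w η x ∧ gg S w η' t = gg S w η' x' ∧
      gg S w η t = gg S w η' t
  · rw [ind_true h, one_mul]
    obtain ⟨t0, a1, a2, a3⟩ := h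
    symm
    apply sum_ind_shift _ _ t0
    intro v
    have e1 : gg S w η (v + t0) = gg S w η x ↔ gg S w η v = S.z := by
      rw [← a1, hw.eq_iff, add_add_self']
    have e2 : gg S w η' (v + t0) = gg S w η' x' ↔ gg S w η' v = S.z := by
      rw [← a2, hw.eq_iff, add_add_self']
    constructor
    · rintro ⟨b1, b2, -⟩; exact ⟨e1.1 b1, e2.1 b2⟩
    · rintro ⟨b1, b2⟩
      refine ⟨e1.2 b1, e2.2 b2, ?_⟩
      rw [e1.2 b1, e2.2 b2, ← a1, ← a2, a3]
  · rw [ind_false h, zero_mul]
    symm
    apply Finset.sum_eq_zero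
    intro t _
    exact ind_false fun ht => h ⟨t, ht⟩

theorem LL_le_aux (η η' : Y) (x x' : V) : ind (∃ t, gg S w η t = gg S w η x ∧
    gg S w η' t = gg S w η' x' ∧ gg S w η t = gg S w η' t) ≤
      ind (gg S w η x = gg S w η' x') := by
  apply ind_le
  rintro ⟨t, h1, h2, h3⟩
  rw [← h1, ← h2, h3]

theorem LL_le_AA (η η' : Y) : LL S w η η' ≤ AA S w η η' := by
  apply Finset.sum_le_sum
  intro x _
  apply Finset.sum_le_sum
  intro x' _
  exact LL_le_aux η η' x x'

theorem LL_eq_AA_iff (η η' : Y) : LL S w η η' = AA S w η η' ↔ LkQ S w η η' := by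
  constructor
  · intro h x x' hx
    have h1 := (Finset.sum_eq_sum_iff_of_le (s := Finset.univ) (f := fun x : V => ∑ x' : V,
      ind (∃ t, gg S w η t = gg S w η x ∧ gg S w η' t = gg S w η' x' ∧ gg S w η t = gg S w η' t))
      (g := fun x : V => ∑ x' : V, ind (gg S w η x = gg S w η' x'))
      (fun x _ => Finset.sum_le_sum fun x' _ => LL_le_aux η η' x x')).1 h x (Finset.mem_univ _)
    have h2 := (Finset.sum_eq_sum_iff_of_le (s := Finset.univ) (f := fun x' : V =>
      ind (∃ t, gg S w η t = gg S w η x ∧ gg S w η' t = gg S w η' x' ∧ gg S w η t = gg S w η' t))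
      (g := fun x' : V => ind (gg S w η x = gg S w η' x'))
      (fun x' _ => LL_le_aux η η' x x')).1 h1 x' (Finset.mem_univ _)
    rw [ind_true hx] at h2
    by_contra hc
    rw [ind_false] at h2
    · exact absurd h2 (by norm_num)
    · rintro ⟨t, a1, a2, a3⟩
      exact hc ⟨t, a1, by rw [← a3, a1]⟩
  · intro h
    apply le_antisymm (LL_le_AA η η')
    apply Finset.sum_le_sum
    intro x _
    apply Finset.sum_le_sum
    intro x' _
    apply ind_le
    intro hx
    obtain ⟨t, h1, h2⟩ := h x x' hx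
    exact ⟨t, h1, by rw [h2, hx], by rw [h1, h2]⟩

theorem ccc_le (hw : Fam S w) (η η' : Y) :
    cc S w η * cc S w η' * cc S w (η + η') ≤ AA S w η η' * ZZ S w η η' := by
  rw [← LL_mul hw]
  exact mul_le_mul_of_nonneg_right (LL_le_AA η η') (ZZ_pos η η').le

theorem ccc_eq_iff (hw : Fam S w) (η η' : Y) :
    cc S w η * cc S w η' * cc S w (η + η') = AA S w η η' * ZZ S w η η' ↔ LkQ S w η η' := by
  rw [← LL_mul hw, ← LL_eq_AA_iff]
  constructor
  · intro h
    exact mul_right_cancel₀ (ZZ_pos η η').ne' h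
  · intro h; rw [h]

/-! ### the closure lemma -/

theorem AA_eq (hw : Fam S w) (η y : Y) :
    AA S w η y = ∑ x : V, ind (η ∈ Wx hw x y) * cc S w y := by
  unfold AA
  apply Finset.sum_congr rfl
  intro x _
  by_cases h : η ∈ Wx hw x y
  · obtain ⟨t, ht⟩ := id h
    rw [ind_true h, one_mul, ← sum_eq_cc hw y t, ht]
  · rw [ind_false h, zero_mul]
    apply Finset.sum_eq_zero
    intro t _
    exact ind_false fun ht => h ⟨t, ht⟩

theorem ZZ_eq (η y : Y) :
    ZZ S w η y = ∑ x : V, ind (η ∈ Vx S w x) * ind (gg S w y x = S.z) := by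
  unfold ZZ
  apply Finset.sum_congr rfl
  intro x _
  rw [ind_and, ind_congr mem_Vx]

variable [Fintype Y]

theorem convQ_nonneg (hw : Fam S w) (χ : D Y) (y : Y) (hL : ∀ η, LkQ S w η y) :
    0 ≤ ∑ η : Y, cc S w η * cc S w (η + y) * sg (χ η) := by
  have h2 : ∑ η : Y, AA S w η y * ZZ S w η y * sg (χ η) =
      cc S w y * ∑ η : Y, cc S w η * cc S w (η + y) * sg (χ η) := by
    rw [Finset.mul_sum]
    apply Finset.sum_congr rfl
    intro η _
    rw [← (ccc_eq_iff hw η y).2 (hL η)]
    ring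
  have h3 : ∑ η : Y, AA S w η y * ZZ S w η y * sg (χ η) =
      ∑ x : V, ∑ x' : V, (cc S w y * ind (gg S w y x' = S.z)) *
        ∑ η : Y, ind (η ∈ Wx hw x y ⊓ Vx S w x') * sg (χ η) := by
    have e1 : ∀ η : Y, AA S w η y * ZZ S w η y * sg (χ η) = ∑ x : V, ∑ x' : V,
        (cc S w y * ind (gg S w y x' = S.z)) *
          (ind (η ∈ Wx hw x y ⊓ Vx S w x') * sg (χ η)) := by
      intro η
      rw [AA_eq hw, ZZ_eq, Finset.sum_mul_sum, Finset.sum_mul]
      apply Finset.sum_congr rfl
      intro x _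
      rw [Finset.sum_mul]
      apply Finset.sum_congr rfl
      intro x' _
      have : ind (η ∈ Wx hw x y ⊓ Vx S w x') = ind (η ∈ Wx hw x y) * ind (η ∈ Vx S w x') := by
        rw [← ind_and]; exact ind_congr Submodule.mem_inf
      rw [this]
      ring
    rw [Finset.sum_congr rfl fun η _ => e1 η, Finset.sum_comm]
    apply Finset.sum_congr rfl
    intro x _
    rw [Finset.sum_comm]
    apply Finset.sum_congr rfl
    intro x' _
    rw [Finset.mul_sum]
  have h4 : 0 ≤ cc S w y * ∑ η : Y, cc S w η * cc S w (η + y) * sg (χ η) := by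
    rw [← h2, h3]
    apply Finset.sum_nonneg
    intro x _
    apply Finset.sum_nonneg
    intro x' _
    exact mul_nonneg (mul_nonneg (cc_pos y).le (ind_nonneg _)) (sum_sub_nonneg _ _)
  by_contra hc
  push Not at hc
  have := mul_neg_of_pos_of_neg (cc_pos (S := S) (w := w) y) hc
  omega

theorem sum_cc_sg (χ : D Y) :
    ∑ η : Y, cc S w η * sg (χ η) = ∑ x : V, (∑ η : Y, ind (η ∈ Vx S w x)) *
      ind (∀ η ∈ Vx S w x, χ η = 0) := by
  unfold cc
  rw [Finset.sum_congr rfl fun η _ => Finset.sum_mul _ _ _, Finset.sum_comm]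
  apply Finset.sum_congr rfl
  intro x _
  rw [← sum_sub]
  rfl

theorem sum_cc_ne (χ : D Y) (h : ∃ x, ∀ η ∈ Vx S w x, χ η = 0) :
    ∑ η : Y, cc S w η * sg (χ η) ≠ 0 := by
  obtain ⟨x, hx⟩ := h
  rw [sum_cc_sg]
  apply ne_of_gt
  apply Finset.sum_pos' (fun x _ => mul_nonneg (sum_sub_pos _).le (ind_nonneg _))
  refine ⟨x, Finset.mem_univ _, ?_⟩
  rw [ind_true hx, mul_one]
  exact sum_sub_pos _

theorem sum_cc_zero (χ : D Y) (h : ¬ ∃ x, ∀ η ∈ Vx S w x, χ η = 0) :
    ∑ η : Y, cc S w η * sg (χ η) = 0 := by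
  rw [sum_cc_sg]
  apply Finset.sum_eq_zero
  intro x _
  rw [ind_false (fun hx => h ⟨x, hx⟩), mul_zero]

end counting


end

end Pool.Agent.LSS
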