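import Pool.Agent.LSS.WFam
import Pool.Agent.ETC.QSat2

/-!
THEOREM LS (note 1939, local saturation), set valued.
-/

set_option autoImplicit false
set_option linter.unusedSectionVars false

namespace Pool.Agent.LSS

open Finset ETC

variable {V Q : Type} [AddCommGroup V] [Module (ZMod 2) V] {S : WData V Q} {φ : D V} {c : Q}

open Classical in
/-- the map `x ↦ φ(x) c` -/
noncomputable def al (S : WData V Q) (φ : D V) (c : Q) (x : V) : Q := if φ x = 0 then S.z else c

theorem al0 {x : V} (h : φ x = 0) : al S φ c x = S.z := if_pos h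

theorem al1 {x : V} (h : φ x = 1) : al S φ c x = c := by
  unfold al
  rw [if_neg]
  rw [h]; exact one_ne_zero

variable (S φ c) in
/-- The situation of Theorem LS. -/
structure WLoc : Prop where
  cne : c ≠ S.z
  φne : φ ≠ 0
  sl : ∀ x, φ x = 1 → ∃ y, S.q x y = c
  lk : ∀ z, (∃ y, S.q z y = c) → ∀ y a b, S.q z a = S.q y b →
    ∃ t, S.q z t = S.q z a ∧ S.q y t = S.q z a

/-- some `v` has the prescribed values at `x`, `x'`, `x + x'` -/
theorem WLoc.solve (h : WLoc S φ c) (x x' : V) : ∃ v, al S φ c x = S.q x v ∧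
    al S φ c x' = S.q x' v ∧ al S φ c (x + x') = S.q (x + x') v := by
  have key : ∀ a b, φ a = 1 → φ b = 1 → ∃ s, S.q a s = c ∧ S.q b s = c := by
    intro a b ha hb
    obtain ⟨u, hu⟩ := h.sl a ha
    obtain ⟨v, hv⟩ := h.sl b hb
    obtain ⟨t, h1, h2⟩ := h.lk a ⟨u, hu⟩ b u v (by rw [hu, hv])
    exact ⟨t, by rw [h1, hu], by rw [h2, hu]⟩
  have comm : ∀ a b s, S.q a s = S.q b s → S.q (a + b) s = S.z := fun a b s hab =>
    S.eq_iff'.1 hab
  rcases zm (φ x) with hx | hx <;> rcases zm (φ x') with hx' | hx'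
  · refine ⟨0, ?_, ?_, ?_⟩ <;> rw [S.q_zero, al0]
    · exact hx
    · exact hx'
    · rw [map_add, hx, hx', add_zero]
  · have e : φ (x + x') = 1 := by rw [map_add, hx, hx', zero_add]
    obtain ⟨s, h1, h2⟩ := key x' (x + x') hx' e
    refine ⟨s, ?_, by rw [al1 hx', h1], by rw [al1 e, h2]⟩
    have := comm _ _ _ (h1.trans h2.symm)
    rw [show x' + (x + x') = x + x' + x' by abel, add_add_self'] at this
    rw [al0 hx, this]
  · have e : φ (x + x') = 1 := by rw [map_add, hx, hx', add_zero]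
    obtain ⟨s, h1, h2⟩ := key x (x + x') hx e
    refine ⟨s, by rw [al1 hx, h1], ?_, by rw [al1 e, h2]⟩
    have := comm _ _ _ (h1.trans h2.symm)
    rw [ETC.add_add_self] at this
    rw [al0 hx', this]
  · obtain ⟨s, h1, h2⟩ := key x x' hx hx'
    refine ⟨s, by rw [al1 hx, h1], by rw [al1 hx', h2], ?_⟩
    rw [al0 (by rw [map_add, hx, hx']; exact ZModModule.add_self 1),
      comm _ _ _ (h1.trans h2.symm)]

section fam
variable {α : V → Q} {s : V → V}

theorem gz (y x : V) : gg S (ws s) (y, 0) x = S.q x y := by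
  unfold gg; rw [ws_zero]

theorem go (hs : ∀ x, α x = S.q x (s x)) {x v : V} (h : α x = S.q x v) (y : V) :
    gg S (ws s) (y, 1) x = S.q x (y + v) := by
  unfold gg
  rw [ws_one, S.eq_iff, add_add_add_comm, ZModModule.add_self, zero_add]
  rw [← S.eq_iff, ← hs, h]

/-- zeros of `g (y, 1)` -/
theorem go_zero (hs : ∀ x, α x = S.q x (s x)) (y x : V) :
    gg S (ws s) (y, 1) x = S.z ↔ S.q x y = α x := by
  rw [go hs (hs x), hs x]
  exact (S.add x y (s x)).symm

theorem ws_famW (hα : ∀ x x', ∃ v, α x = S.q x v ∧ α x' = S.q x' v ∧ α (x + x') = S.q (x + x') v)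
    (hs : ∀ x, α x = S.q x (s x)) : Fam S (ws s) := by
  constructor
  intro x x'
  obtain ⟨v, h1, h2, h3⟩ := hα x x'
  refine ⟨LinearMap.fst (ZMod 2) V (ZMod 2) +
    (LinearMap.toSpanSingleton (ZMod 2) V v).comp (LinearMap.snd (ZMod 2) V (ZMod 2)), ?_⟩
  rintro ⟨y, ε⟩
  rcases zm ε with rfl | rfl
  · simp [ws]
  · have e1 := go hs h1 y
    have e2 := go hs h2 y
    have e3 := go hs h3 y
    unfold gg at e1 e2 e3
    rw [e1, e2, e3]
    simp

end fam

/-- a choice of slots -/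
theorem exists_s (h : WLoc S φ c) : ∃ s : V → V, ∀ x, al S φ c x = S.q x (s x) := by
  have : ∀ x, ∃ v, al S φ c x = S.q x v := fun x => by
    obtain ⟨v, h1, -, -⟩ := h.solve x x
    exact ⟨v, h1⟩
  choose s hs using this
  exact ⟨s, hs⟩

/-- the data together with a choice of slots -/
structure WS (S : WData V Q) (φ : D V) (c : Q) (s : V → V) : Prop extends WLoc S φ c where
  hs : ∀ x, al S φ c x = S.q x (s x)

variable {s : V → V}

theorem WS.fam (h : WS S φ c s) : Fam S (ws s) := ws_famW h.solve h.hs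

section sums
variable [Fintype V]

/-- `F0` -/
noncomputable def G0 (S : WData V Q) (s : V → V) (y : V) : ℤ := cc S (ws s) (y, 0)

/-- `F1` -/
noncomputable def G1 (S : WData V Q) (s : V → V) (y : V) : ℤ := cc S (ws s) (y, 1)

theorem G0_pos (y : V) : 0 < G0 S s y := cc_pos _

theorem G1_pos (y : V) : 0 < G1 S s y := cc_pos _

theorem WS.sum_eq (h : WS S φ c s) (z : V) :
    ∑ y : V, G1 S s y * G1 S s (y + z) = ∑ y : V, G0 S s y * G0 S s (y + z) := by
  have key : ∀ ε : ZMod 2, ∑ y : V, cc S (ws s) (y, ε) * cc S (ws s) (y + z, ε) =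
      ∑ x : V, ∑ x' : V, ∑ y : V,
        ind (gg S (ws s) (y, ε) x = S.z ∧ gg S (ws s) (y + z, ε) x' = S.z) := by
    intro ε
    have h1 : ∀ y : V, cc S (ws s) (y, ε) * cc S (ws s) (y + z, ε) = ∑ x : V, ∑ x' : V,
        ind (gg S (ws s) (y, ε) x = S.z ∧ gg S (ws s) (y + z, ε) x' = S.z) := by
      intro y
      unfold cc
      rw [Finset.sum_mul_sum]
      simp only [ind_and]
    rw [Finset.sum_congr rfl fun y _ => h1 y, Finset.sum_comm]
    apply Finset.sum_congr rfl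
    intro x _
    rw [Finset.sum_comm]
  unfold G1 G0
  rw [key 1, key 0]
  apply Finset.sum_congr rfl
  intro x _
  apply Finset.sum_congr rfl
  intro x' _
  obtain ⟨v, a1, a2, -⟩ := h.solve x x'
  apply sum_ind_shift _ _ v
  intro y
  rw [gz, gz, go h.hs a1, go h.hs a2, add_add_self', add_right_comm y v z, add_add_self']

/-- zeros of `q y` on `φ = 0` -/
noncomputable def nw (S : WData V Q) (φ : D V) (y : V) : ℤ :=
  ∑ x : V, ind (S.q x y = S.z ∧ φ x = 0)

theorem nw_eq (y : V) (b : Q) (hx : ∃ x, S.q x y = b ∧ φ x = 1) :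
    ∑ x : V, ind (S.q x y = b ∧ φ x = 1) = nw S φ y := by
  obtain ⟨x0, h1, h2⟩ := hx
  unfold nw
  apply sum_ind_shift _ _ x0
  intro v
  have e : S.q (v + x0) y = b ↔ S.q v y = S.z := by
    rw [← h1, S.symm (v + x0), S.symm x0, S.add, add_add_self', S.symm]
  rw [e, map_add, h2]
  constructor
  · rintro ⟨e1, e2⟩
    exact ⟨e1, by simpa using e2⟩
  · rintro ⟨e1, e2⟩
    exact ⟨e1, by rw [e2, zero_add]⟩

theorem nw_zero (y : V) (b : Q) (hx : ¬ ∃ x, S.q x y = b ∧ φ x = 1) :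
    ∑ x : V, ind (S.q x y = b ∧ φ x = 1) = 0 := by
  apply Finset.sum_eq_zero
  intro x _
  exact ind_false fun h => hx ⟨x, h⟩

theorem G0_split (φ : D V) (y : V) :
    G0 S s y = nw S φ y + ∑ x : V, ind (S.q x y = S.z ∧ φ x = 1) := by
  unfold G0 cc nw
  rw [← Finset.sum_add_distrib]
  apply Finset.sum_congr rfl
  intro x _
  rw [gz]
  rcases zm (φ x) with h | h
  · rw [ind_false (P := S.q x y = S.z ∧ φ x = 1)
      (fun h' => zero_ne_one (h.symm.trans h'.2)), add_zero]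
    exact ind_congr ⟨fun h' => ⟨h', h⟩, fun h' => h'.1⟩
  · rw [ind_false (P := S.q x y = S.z ∧ φ x = 0)
      (fun h' => zero_ne_one (h'.2.symm.trans h)), zero_add]
    exact ind_congr ⟨fun h' => ⟨h', h⟩, fun h' => h'.1⟩

theorem WS.G1_split (h : WS S φ c s) (y : V) :
    G1 S s y = nw S φ y + ∑ x : V, ind (S.q x y = c ∧ φ x = 1) := by
  unfold G1 cc nw
  rw [← Finset.sum_add_distrib]
  apply Finset.sum_congr rfl
  intro x _
  rw [ind_congr (go_zero h.hs y x)]
  rcases zm (φ x) with hx | hx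
  · rw [ind_false (P := S.q x y = c ∧ φ x = 1)
      (fun h' => zero_ne_one (hx.symm.trans h'.2)), add_zero, al0 hx]
    exact ind_congr ⟨fun h' => ⟨h', hx⟩, fun h' => h'.1⟩
  · rw [ind_false (P := S.q x y = S.z ∧ φ x = 0)
      (fun h' => zero_ne_one (h'.2.symm.trans hx)), zero_add, al1 hx]
    exact ind_congr ⟨fun h' => ⟨h', hx⟩, fun h' => h'.1⟩

/-- `y ∈ Θ` -/
def TW (S : WData V Q) (φ : D V) (c : Q) (y : V) : Prop :=
  (∃ x, S.q x y = S.z ∧ φ x = 1) ∧ ¬ ∃ x, S.q x y = c ∧ φ x = 1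

/-- `y ∈ Σ` -/
def SW (S : WData V Q) (φ : D V) (c : Q) (y : V) : Prop :=
  (¬ ∃ x, S.q x y = S.z ∧ φ x = 1) ∧ ∃ x, S.q x y = c ∧ φ x = 1

theorem WS.G_th (h : WS S φ c s) {y : V} (hy : TW S φ c y) : G0 S s y = 2 * G1 S s y := by
  rw [G0_split φ, h.G1_split, nw_eq y _ hy.1, nw_zero y c hy.2]; ring

theorem WS.G_sg (h : WS S φ c s) {y : V} (hy : SW S φ c y) : G1 S s y = 2 * G0 S s y := by
  rw [G0_split φ, h.G1_split, nw_eq y c hy.2, nw_zero y _ hy.1]; ring

theorem WS.G_eq (h : WS S φ c s) {y : V} (h1 : ¬ TW S φ c y) (h2 : ¬ SW S φ c y) :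
    G1 S s y = G0 S s y := by
  rw [G0_split φ, h.G1_split]
  by_cases ha : ∃ x, S.q x y = S.z ∧ φ x = 1 <;> by_cases hb : ∃ x, S.q x y = c ∧ φ x = 1
  · rw [nw_eq y _ ha, nw_eq y c hb]
  · exact absurd ⟨ha, hb⟩ h1
  · exact absurd ⟨ha, hb⟩ h2
  · rw [nw_zero y _ ha, nw_zero y c hb]

theorem WLoc.th_zero (h : WLoc S φ c) : TW S φ c 0 := by
  constructor
  · obtain ⟨x, hx⟩ : ∃ x, φ x = 1 := by
      by_contra hc
      push Not at hc
      exact h.φne (LinearMap.ext fun v => (zm (φ v)).resolve_right (hc v))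
    exact ⟨x, S.q_zero x, hx⟩
  · rintro ⟨x, hx, -⟩
    rw [S.q_zero] at hx
    exact h.cne hx.symm

/-- `Σ` is not empty -/
theorem WS.sg_ex (h : WS S φ c s) : ∃ z, SW S φ c z := by
  by_contra hc
  push Not at hc
  have hs := h.sum_eq 0
  simp only [add_zero] at hs
  have hle : ∀ y ∈ (Finset.univ : Finset V), G1 S s y * G1 S s y ≤ G0 S s y * G0 S s y := by
    intro y _
    by_cases hy : TW S φ c y
    · have e := h.G_th hy
      have := G1_pos (S := S) (s := s) y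
      rw [e]; nlinarith
    · rw [h.G_eq hy (hc y)]
  have h0 := (Finset.sum_eq_sum_iff_of_le hle).1 hs 0 (Finset.mem_univ _)
  have e := h.G_th h.th_zero
  have := G1_pos (S := S) (s := s) (0 : V)
  rw [e] at h0
  nlinarith

/-- the number of coincidences does not change -/
theorem WS.AA_eq' (h : WS S φ c s) {z : V} (hz : ∃ y, S.q z y = c) (y : V) :
    AA S (ws s) (y, 1) (z, 0) = AA S (ws s) (y, 0) (z, 0) := by
  rw [AA_eq h.fam, AA_eq h.fam]
  apply Finset.sum_congr rfl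
  intro x _
  have h0 : ((0, 1) : V × ZMod 2) ∈ Wx h.fam x (z, 0) := by
    show ∃ t, gg S (ws s) (0, 1) x = gg S (ws s) (z, 0) t
    rw [go h.hs (h.hs x), zero_add, ← h.hs x]
    rcases zm (φ x) with hx | hx
    · exact ⟨0, by rw [al0 hx, gz, q_zero_left]⟩
    · obtain ⟨u, hu⟩ := hz
      exact ⟨u, by rw [al1 hx, gz, S.symm, hu]⟩
  have e : ind (((y, 1) : V × ZMod 2) ∈ Wx h.fam x (z, 0)) =
      ind (((y, 0) : V × ZMod 2) ∈ Wx h.fam x (z, 0)) := by
    apply ind_congr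
    have e1 : ((y, 1) : V × ZMod 2) = (y, 0) + (0, 1) := by simp
    rw [e1]
    exact Submodule.add_mem_iff_left _ h0
  rw [e]

/-- the number of common zeros does not change -/
theorem WS.ZZ_eq' (h : WS S φ c s) {z : V} (hz : SW S φ c z) (y : V) :
    ZZ S (ws s) (y, 1) (z, 0) = ZZ S (ws s) (y, 0) (z, 0) := by
  unfold ZZ
  apply Finset.sum_congr rfl
  intro x _
  apply ind_congr
  have key : gg S (ws s) (z, 0) x = S.z → al S φ c x = S.z := by
    intro h1
    rw [gz] at h1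
    exact al0 ((zm (φ x)).resolve_right fun h' => hz.1 ⟨x, h1, h'⟩)
  constructor
  · rintro ⟨h1, h2⟩
    rw [go_zero h.hs, key h2] at h1
    exact ⟨by rw [gz, h1], h2⟩
  · rintro ⟨h1, h2⟩
    rw [gz] at h1
    exact ⟨by rw [go_zero h.hs, key h2, h1], h2⟩

theorem WS.lkz (h : WS S φ c s) {z : V} (hz : ∃ y, S.q z y = c) (y : V) :
    LkQ S (ws s) (y, 0) (z, 0) := by
  intro x x' e
  rw [gz, gz] at e
  obtain ⟨t, h1, h2⟩ := h.lk z hz y x' x (by rw [S.symm z, ← e, S.symm])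
  refine ⟨t, ?_, ?_⟩
  · rw [gz, gz, S.symm t, h2, S.symm z, ← e]
  · rw [gz, gz, S.symm t, h1, S.symm z, ← e]

theorem WS.le (h : WS S φ c s) {z : V} (hz : SW S φ c z) (y : V) :
    G1 S s y * G1 S s (y + z) ≤ G0 S s y * G0 S s (y + z) := by
  have hz' : ∃ y, S.q z y = c := by
    obtain ⟨x, hx, -⟩ := hz.2
    exact ⟨x, by rw [S.symm, hx]⟩
  have h1 := ccc_le h.fam (y, 1) (z, 0)
  have h2 := (ccc_eq_iff h.fam (y, 0) (z, 0)).2 (h.lkz hz' y)
  rw [h.AA_eq' hz', h.ZZ_eq' hz, ← h2, Prod.mk_add_mk, Prod.mk_add_mk, add_zero, add_zero] at h1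
  have hc : 0 < cc S (ws s) (z, 0) := cc_pos _
  have h4 : cc S (ws s) (z, 0) * (G1 S s y * G1 S s (y + z)) ≤
      cc S (ws s) (z, 0) * (G0 S s y * G0 S s (y + z)) := by
    unfold G1 G0
    linarith [h1]
  exact le_of_mul_le_mul_left h4 hc

theorem WS.eq (h : WS S φ c s) {z : V} (hz : SW S φ c z) (y : V) :
    G1 S s y * G1 S s (y + z) = G0 S s y * G0 S s (y + z) :=
  (Finset.sum_eq_sum_iff_of_le fun y _ => h.le hz y).1 (h.sum_eq z) y (Finset.mem_univ _)

theorem WS.th_sg (h : WS S φ c s) {y z : V} (hy : TW S φ c y) (hz : SW S φ c z) :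
    SW S φ c (y + z) := by
  have e := h.eq hz y
  rw [h.G_th hy] at e
  have hp := G1_pos (S := S) (s := s) y
  have hp' := G0_pos (S := S) (s := s) (y + z)
  have e' : G1 S s (y + z) = 2 * G0 S s (y + z) := by
    apply mul_left_cancel₀ hp.ne'
    linear_combination e
  by_contra hsn
  by_cases ht : TW S φ c (y + z)
  · have := h.G_th ht
    omega
  · have := h.G_eq ht hsn
    omega

theorem WS.sg_sg (h : WS S φ c s) {y z : V} (hy : SW S φ c y) (hz : SW S φ c z) :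
    TW S φ c (y + z) := by
  have e := h.eq hz y
  rw [h.G_sg hy] at e
  have hp := G0_pos (S := S) (s := s) y
  have hp' := G0_pos (S := S) (s := s) (y + z)
  have e' : 2 * G1 S s (y + z) = G0 S s (y + z) := by
    apply mul_left_cancel₀ hp.ne'
    linear_combination e
  by_contra ht
  by_cases hsn : SW S φ c (y + z)
  · have := h.G_sg hsn
    omega
  · have := h.G_eq ht hsn
    omega

theorem WS.th_th (h : WS S φ c s) {y y' : V} (hy : TW S φ c y) (hy' : TW S φ c y') :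
    TW S φ c (y + y') := by
  obtain ⟨z, hz⟩ := h.sg_ex
  have := h.sg_sg (h.th_sg hy hz) (h.th_sg hy' hz)
  rwa [add_add_add_comm, ZModModule.add_self, add_zero] at this

end sums

/-- two members of `Σ + f₀` are linked -/
theorem WS.lk_sg (h : WS S φ c s) {t t' : V} (ht : SW S φ c t) (ht' : SW S φ c t') :
    LkQ S (ws s) (t, 1) (t', 1) := by
  obtain ⟨v, hv, hv'⟩ := ht.2
  obtain ⟨v2, hv2, -⟩ := ht'.2
  -- a common slot of value `c`
  obtain ⟨u, hu, hu'⟩ := h.lk t ⟨v, by rw [S.symm, hv]⟩ t' v v2 (by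
    rw [S.symm t, hv, S.symm t', hv2])
  rw [S.symm t v, hv] at hu hu'
  have hφu : φ u = 1 := by
    by_contra hc
    have h0 := (zm (φ u)).resolve_right hc
    refine ht.1 ⟨u + v, ?_, by rw [map_add, h0, hv', zero_add]⟩
    rw [S.symm]
    exact (S.add t u v).1 (by rw [hu, S.symm, hv])
  have hgu : gg S (ws s) (t, 1) u = S.z := by
    rw [go_zero h.hs, al1 hφu, S.symm, hu]
  have hgu' : gg S (ws s) (t', 1) u = S.z := by
    rw [go_zero h.hs, al1 hφu, S.symm, hu']
  have red : ∀ η : V × ZMod 2, gg S (ws s) η u = S.z → ∀ x, ∃ y,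
      gg S (ws s) η y = gg S (ws s) η x ∧ φ y = 0 := by
    intro η hg x
    rcases zm (φ x) with h0 | h0
    · exact ⟨x, rfl, h0⟩
    · refine ⟨x + u, ?_, by rw [map_add, h0, hφu, ZModModule.add_self]⟩
      rw [h.fam.eq_iff, show x + u + x = u + (x + x) by abel, ZModModule.add_self, add_zero, hg]
  have val0 : ∀ y x : V, φ x = 0 → gg S (ws s) (y, 1) x = S.q y x := by
    intro y x hx
    rw [go h.hs (v := 0) (by rw [al0 hx, S.q_zero]), add_zero, S.symm]
  intro x x' e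
  obtain ⟨y, hy, hφy⟩ := red _ hgu x
  obtain ⟨y', hy', hφy'⟩ := red _ hgu' x'
  rw [← hy, ← hy', val0 _ _ hφy, val0 _ _ hφy'] at e
  rw [← hy, val0 _ _ hφy]
  obtain ⟨r, h1, h2⟩ := h.lk t ⟨v, by rw [S.symm, hv]⟩ t' y y' e
  have hφr : φ r = 0 := by
    by_contra hc
    have h0 := (zm (φ r)).resolve_left hc
    refine ht.1 ⟨r + y, ?_, by rw [map_add, h0, hφy, add_zero]⟩
    rw [S.symm]
    exact (S.add t r y).1 h1
  exact ⟨r, by rw [val0 _ _ hφr, h1], by rw [val0 _ _ hφr, h2]⟩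

end Pool.Agent.LSS
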