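import Pool.Agent.LSS.WLS

/-!
THEOREM LS, set valued: the end of the proof.
-/

set_option autoImplicit false
set_option linter.unusedSectionVars false

namespace Pool.Agent.LSS

open Finset ETC

variable {V Q Y : Type} [AddCommGroup V] [Module (ZMod 2) V] [AddCommGroup Y] [Module (ZMod 2) Y]
  {S : WData V Q} {w : V → Y →ₗ[ZMod 2] V}

section
variable [Fintype V] [Fintype Y]

/-- the Fourier coefficient -/
noncomputable def Cw (S : WData V Q) (w : V → Y →ₗ[ZMod 2] V) (χ : D Y) : ℤ :=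
  ∑ η : Y, cc S w η * sg (χ η)

theorem Cw_eq (χ : D Y) : Cw S w χ = ∑ x : V, (∑ η : Y, ind (η ∈ Vx S w x)) *
    ind (∀ η ∈ Vx S w x, χ η = 0) := sum_cc_sg χ

theorem Cw_nonneg (χ : D Y) : 0 ≤ Cw S w χ := by
  rw [Cw_eq]
  exact Finset.sum_nonneg fun x _ => mul_nonneg (sum_sub_pos _).le (ind_nonneg _)

theorem Cw_pos {χ : D Y} (h : ∃ x, ∀ η ∈ Vx S w x, χ η = 0) : 0 < Cw S w χ :=
  lt_of_le_of_ne (Cw_nonneg χ) (sum_cc_ne χ h).symm

theorem Cw_ex {χ : D Y} (h : 0 < Cw S w χ) : ∃ x, ∀ η ∈ Vx S w x, χ η = 0 := by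
  by_contra hc
  exact h.ne' (sum_cc_zero χ hc)

theorem conv_sumW (χ θ : D Y) :
    ∑ y : Y, (∑ η : Y, cc S w η * cc S w (η + y) * sg (χ η)) * sg (θ y) =
      Cw S w (χ + θ) * Cw S w θ := by
  rw [Finset.sum_congr rfl fun y _ => Finset.sum_mul _ _ _, Finset.sum_comm, Cw, Finset.sum_mul]
  apply Finset.sum_congr rfl
  intro η _
  rw [Cw, ← Equiv.sum_comp (Equiv.addLeft η) (fun v => cc S w v * sg (θ v)), Finset.mul_sum]
  apply Finset.sum_congr rfl
  intro y _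
  simp only [Equiv.coe_addLeft]
  rw [LinearMap.add_apply, sg_add, map_add θ, sg_add]
  have : sg (θ η) * sg (θ η) = 1 := by
    rcases zm (θ η) with h | h <;> simp [h]
  linear_combination (-(cc S w η * cc S w (η + y) * sg (χ η) * sg (θ y))) * this

theorem parsevalW (χ₀ : D Y) : ∑ χ : D Y, Cw S w χ * Cw S w (χ + χ₀) =
    Fintype.card Y * ∑ y : Y, cc S w y * cc S w y * sg (χ₀ y) := by
  have h1 : ∀ χ : D Y, Cw S w χ * Cw S w (χ + χ₀) = ∑ η : Y, ∑ η' : Y,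
      cc S w η * cc S w η' * sg (χ₀ η') * sg (χ (η + η')) := by
    intro χ
    rw [Cw, Cw, Finset.sum_mul_sum]
    apply Finset.sum_congr rfl
    intro η _
    apply Finset.sum_congr rfl
    intro η' _
    rw [LinearMap.add_apply, sg_add, map_add, sg_add]
    ring
  rw [Finset.sum_congr rfl fun χ _ => h1 χ, Finset.sum_comm, Finset.mul_sum]
  apply Finset.sum_congr rfl
  intro η _
  rw [Finset.sum_comm]
  have h2 : ∀ η' : Y, ∑ χ : D Y, cc S w η * cc S w η' * sg (χ₀ η') * sg (χ (η + η')) =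
      cc S w η * cc S w η' * sg (χ₀ η') * (Fintype.card Y * ind (η + η' = 0)) := by
    intro η'
    rw [← Finset.mul_sum, sum_sg_dual]
  rw [Finset.sum_congr rfl fun η' _ => h2 η', Finset.sum_eq_single η]
  · rw [ind_true (ZModModule.add_self η)]; ring
  · intro η' _ hne
    rw [ind_false fun h => hne (ETC.eq_of_add_eq_zero h).symm, mul_zero, mul_zero]
  · intro h
    exact absurd (Finset.mem_univ _) h

theorem zero_offW (hw : Fam S w) (χ₀ : D Y) (hL : ∀ y, χ₀ y = 1 → ∀ η, LkQ S w η y)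
    (h0 : ∑ y : Y, cc S w y * cc S w y * sg (χ₀ y) = 0) :
    ∃ y, χ₀ y = 1 ∧ ∀ x, gg S w y x = S.z := by
  classical
  have hp := parsevalW (S := S) (w := w) χ₀
  rw [h0, mul_zero] at hp
  have hprod : ∀ χ, Cw S w χ * Cw S w (χ + χ₀) = 0 := fun χ =>
    (Finset.sum_eq_zero_iff_of_nonneg
      (fun χ _ => mul_nonneg (Cw_nonneg χ) (Cw_nonneg (χ + χ₀)))).1 hp χ (Finset.mem_univ _)
  have hz0 : ∃ x, ∀ η ∈ Vx S w x, (0 : D Y) η = 0 := ⟨0, fun η _ => rfl⟩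
  have hc0 : Cw S w χ₀ = 0 := by
    have := hprod 0
    rw [zero_add] at this
    exact (mul_eq_zero.1 this).resolve_left (Cw_pos hz0).ne'
  have key : ∀ ψ₁ ψ₂ : D Y, (∃ x, ∀ η ∈ Vx S w x, ψ₁ η = 0) →
      (∃ x, ∀ η ∈ Vx S w x, ψ₂ η = 0) → ∃ x, ∀ η ∈ Vx S w x, (ψ₁ + ψ₂) η = 0 := by
    intro ψ₁ ψ₂ h₁ h₂
    set χ := ψ₁ + ψ₂ with hχ
    have hP : ∀ y : Y, 0 ≤ (∑ η : Y, cc S w η * cc S w (η + y) * sg (χ η)) *
        ((1 - sg (χ₀ y)) * (1 - sg (ψ₂ y))) := by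
      intro y
      rcases zm (χ₀ y) with h | h
      · rw [h]; simp
      · apply mul_nonneg (convQ_nonneg hw χ y (hL y h))
        rcases zm (ψ₂ y) with h' | h' <;> rw [h, h'] <;> simp
    have hS : 0 ≤ ∑ y : Y, (∑ η : Y, cc S w η * cc S w (η + y) * sg (χ η)) *
        ((1 - sg (χ₀ y)) * (1 - sg (ψ₂ y))) := Finset.sum_nonneg fun y _ => hP y
    have hE : ∑ y : Y, (∑ η : Y, cc S w η * cc S w (η + y) * sg (χ η)) *
        ((1 - sg (χ₀ y)) * (1 - sg (ψ₂ y))) =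
        Cw S w (χ + 0) * Cw S w 0 - Cw S w (χ + χ₀) * Cw S w χ₀ -
          Cw S w (χ + ψ₂) * Cw S w ψ₂ +
          Cw S w (χ + (χ₀ + ψ₂)) * Cw S w (χ₀ + ψ₂) := by
      rw [← conv_sumW, ← conv_sumW, ← conv_sumW, ← conv_sumW, ← Finset.sum_sub_distrib,
        ← Finset.sum_sub_distrib, ← Finset.sum_add_distrib]
      apply Finset.sum_congr rfl
      intro y _
      rw [LinearMap.add_apply, sg_add, LinearMap.zero_apply, sg_zero]
      ring
    have hz : Cw S w (χ₀ + ψ₂) = 0 := by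
      have := hprod ψ₂
      rw [add_comm χ₀]
      exact (mul_eq_zero.1 this).resolve_left (Cw_pos h₂).ne'
    have hx : χ + ψ₂ = ψ₁ := by rw [hχ, add_assoc, ZModModule.add_self, add_zero]
    rw [hE, hc0, hz, hx, mul_zero, mul_zero, add_zero, add_zero, sub_zero] at hS
    have h3 : 0 < Cw S w χ * Cw S w 0 := by
      have := mul_pos (Cw_pos h₁) (Cw_pos h₂)
      omega
    exact Cw_ex ((pos_iff_pos_of_mul_pos h3).2 (Cw_pos hz0))
  let G : Submodule (ZMod 2) (D Y) :=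
    { carrier := {χ | ∃ x, ∀ η ∈ Vx S w x, χ η = 0}
      add_mem' := fun h₁ h₂ => key _ _ h₁ h₂
      zero_mem' := hz0
      smul_mem' := by
        rintro a χ ⟨x, h⟩
        exact ⟨x, fun η hη => by rw [LinearMap.smul_apply, h η hη, smul_zero]⟩ }
  have hτ : χ₀ ∉ G := fun h => (Cw_pos h).ne' hc0
  obtain ⟨f, hf1, hf2⟩ := exists_dual_sep hτ
  obtain ⟨y, rfl⟩ := (Module.evalEquiv (ZMod 2) Y).surjective f
  refine ⟨y, by simpa using hf1, fun x => ?_⟩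
  by_contra hne
  obtain ⟨χ, hχ1, hχ2⟩ := exists_dual_sep (p := Vx S w x) (x := y) hne
  have h3 := hf2 χ ⟨x, hχ2⟩
  rw [Module.evalEquiv_apply, Module.Dual.eval_apply, hχ1] at h3
  exact one_ne_zero h3

end

variable {φ : D V} {c : Q} {s : V → V}

/-- the group of formal elements `Θ ∪ (Σ + f₀)` -/
def GW [Fintype V] (h : WS S φ c s) : Submodule (ZMod 2) (V × ZMod 2) where
  carrier := {η | (η.2 = 0 ∧ TW S φ c η.1) ∨ (η.2 = 1 ∧ SW S φ c η.1)}
  add_mem' := by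
    rintro ⟨a, ε⟩ ⟨b, δ⟩ ha hb
    change (ε = 0 ∧ TW S φ c a) ∨ (ε = 1 ∧ SW S φ c a) at ha
    change (δ = 0 ∧ TW S φ c b) ∨ (δ = 1 ∧ SW S φ c b) at hb
    change (ε + δ = 0 ∧ TW S φ c (a + b)) ∨ (ε + δ = 1 ∧ SW S φ c (a + b))
    rcases ha with ⟨rfl, ha⟩ | ⟨rfl, ha⟩ <;> rcases hb with ⟨rfl, hb⟩ | ⟨rfl, hb⟩
    · exact Or.inl ⟨by decide, h.th_th ha hb⟩
    · exact Or.inr ⟨by decide, h.th_sg ha hb⟩
    · exact Or.inr ⟨by decide, by rw [add_comm]; exact h.th_sg hb ha⟩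
    · exact Or.inl ⟨by decide, h.sg_sg ha hb⟩
  zero_mem' := Or.inl ⟨rfl, h.th_zero⟩
  smul_mem' := by
    intro a η hη
    rcases zm a with rfl | rfl
    · rw [zero_smul]; exact Or.inl ⟨rfl, h.th_zero⟩
    · rwa [one_smul]

theorem LkQ.symm' {η η' : Y} (h : LkQ S w η η') : LkQ S w η' η := by
  intro x x' e
  obtain ⟨t, h1, h2⟩ := h x' x e.symm
  exact ⟨t, by rw [h2, e], by rw [h1, e]⟩

theorem LkQ.sum (hw : Fam S w) {η η' : Y} (h : LkQ S w η η') : LkQ S w η (η + η') := by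
  intro x x' e
  obtain ⟨l, hl⟩ := hw.cons x x'
  obtain ⟨a1, a2, a3⟩ := hl η
  obtain ⟨b1, b2, b3⟩ := hl η'
  obtain ⟨-, d2, -⟩ := hl (η + η')
  have e0 : S.q (l η) x = S.q x' (l η + l η') := by
    rw [S.symm (l η), ← map_add, ← d2, ← a1]
    exact e
  have e' : gg S w η (x + x') = gg S w η' x' := by
    unfold gg
    rw [a3, b2, S.symm (x + x'), add_common e0 (S.symm (l η) x')]
    congr 1
    rw [add_right_comm, ZModModule.add_self, zero_add]
  obtain ⟨t, h1, h2⟩ := h _ _ e'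
  have h3 : gg S w (η + η') t = S.z := (gg_add η η' t).2 (h1.trans h2.symm)
  refine ⟨t + x', ?_, ?_⟩
  · rw [hw.eq_iff, show t + x' + x = t + (x + x') by abel, ← hw.eq_iff, h1]
  · rw [e, hw.eq_iff, add_add_self', h3]

/-- **Theorem LS**, set valued. -/
theorem local_saturationW [Finite V] (h : WLoc S φ c) :
    ∃ t, ∀ v, S.q v t = al S φ c v := by
  classical
  have := Fintype.ofFinite V
  obtain ⟨s, hs⟩ := exists_s h
  have hS : WS S φ c s := ⟨h, hs⟩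
  let Y := GW hS
  let w' : V → Y →ₗ[ZMod 2] V := fun x => (ws s x).comp Y.subtype
  let χ₀ : D Y := (LinearMap.snd (ZMod 2) V (ZMod 2)).comp Y.subtype
  have := Fintype.ofFinite Y
  have hw' : Fam S w' := by
    constructor
    intro x x'
    obtain ⟨l, hl⟩ := hS.fam.cons x x'
    exact ⟨l.comp Y.subtype, fun η => hl η⟩
  have hF0 : ∀ y : Y, χ₀ y = 0 → y.1.2 = 0 ∧ TW S φ c y.1.1 := by
    intro y h0
    change y.1.2 = 0 at h0
    rcases y.2 with ⟨-, ha⟩ | ⟨h1, -⟩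
    · exact ⟨h0, ha⟩
    · rw [h0] at h1
      exact absurd h1 (by decide)
  have hF1 : ∀ y : Y, χ₀ y = 1 → y.1.2 = 1 ∧ SW S φ c y.1.1 := by
    intro y h0
    change y.1.2 = 1 at h0
    rcases y.2 with ⟨h1, -⟩ | ⟨-, ha⟩
    · rw [h0] at h1
      exact absurd h1 (by decide)
    · exact ⟨h0, ha⟩
  have hL1 : ∀ y : Y, χ₀ y = 1 → ∀ η, χ₀ η = 1 → LkQ S w' η y := by
    rintro ⟨⟨a, ε⟩, ha⟩ hy ⟨⟨b, δ⟩, hb⟩ hη
    obtain ⟨h1, h2⟩ := hF1 _ hy
    obtain ⟨h3, h4⟩ := hF1 _ hη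
    change ε = 1 at h1
    change δ = 1 at h3
    subst h1
    subst h3
    exact hS.lk_sg h4 h2
  have hL : ∀ y : Y, χ₀ y = 1 → ∀ η, LkQ S w' η y := by
    intro y hy η
    rcases zm (χ₀ η) with hη | hη
    · have h1 := hL1 y hy (η + y) (by rw [map_add, hη, hy, zero_add])
      have h2 := LkQ.sum hw' (LkQ.symm' h1)
      rw [add_comm η, ETC.add_add_self] at h2
      exact LkQ.symm' h2
    · exact hL1 y hy η hη
  -- the sum over `Y`
  have hsum := hS.sum_eq 0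
  simp only [add_zero] at hsum
  have e1 : ∀ y : Y, cc S w' y * cc S w' y * sg (χ₀ y) =
      (fun η : V × ZMod 2 => ind (η.2 = 0 ∧ TW S φ c η.1) * (G0 S s η.1 * G0 S s η.1) -
        ind (η.2 = 1 ∧ SW S φ c η.1) * (G1 S s η.1 * G1 S s η.1)) y.1 := by
    rintro ⟨⟨a, ε⟩, ha⟩
    rcases zm (χ₀ ⟨⟨a, ε⟩, ha⟩) with h0 | h0
    · obtain ⟨h1, h2⟩ := hF0 _ h0
      rw [h0]
      change ε = 0 at h1
      subst h1
      change TW S φ c a at h2
      show cc S (ws s) (a, 0) * cc S (ws s) (a, 0) * sg 0 = ind ((0 : ZMod 2) = 0 ∧ TW S φ c a) *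
        (G0 S s a * G0 S s a) - ind ((0 : ZMod 2) = 1 ∧ SW S φ c a) * (G1 S s a * G1 S s a)
      rw [ind_true (P := (0 : ZMod 2) = 0 ∧ TW S φ c a) ⟨rfl, h2⟩,
        ind_false (P := (0 : ZMod 2) = 1 ∧ SW S φ c a) (fun h' => zero_ne_one h'.1), sg_zero, G0]
      ring
    · obtain ⟨h1, h2⟩ := hF1 _ h0
      rw [h0]
      change ε = 1 at h1
      subst h1
      change SW S φ c a at h2
      show cc S (ws s) (a, 1) * cc S (ws s) (a, 1) * sg 1 = ind ((1 : ZMod 2) = 0 ∧ TW S φ c a) *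
        (G0 S s a * G0 S s a) - ind ((1 : ZMod 2) = 1 ∧ SW S φ c a) * (G1 S s a * G1 S s a)
      rw [ind_true (P := (1 : ZMod 2) = 1 ∧ SW S φ c a) ⟨rfl, h2⟩,
        ind_false (P := (1 : ZMod 2) = 0 ∧ TW S φ c a) (fun h' => one_ne_zero h'.1), sg_one, G1]
      ring
  have e2 : ∑ y : Y, (fun η : V × ZMod 2 =>
        ind (η.2 = 0 ∧ TW S φ c η.1) * (G0 S s η.1 * G0 S s η.1) -
        ind (η.2 = 1 ∧ SW S φ c η.1) * (G1 S s η.1 * G1 S s η.1)) y.1 =
      ∑ η : V × ZMod 2, (ind (η.2 = 0 ∧ TW S φ c η.1) * (G0 S s η.1 * G0 S s η.1) -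
        ind (η.2 = 1 ∧ SW S φ c η.1) * (G1 S s η.1 * G1 S s η.1)) := by
    apply Finset.sum_of_injOn (fun y : Y => y.1) (fun a _ b _ hab => Subtype.ext hab)
      (fun _ _ => Finset.mem_univ _)
    · intro η _ hη
      have hn : η ∉ Y := fun hy => hη ⟨⟨η, hy⟩, Finset.mem_coe.2 (Finset.mem_univ _), rfl⟩
      rw [ind_false (fun h' => hn (Or.inl h')), ind_false (fun h' => hn (Or.inr h'))]
      ring
    · intro _ _
      rfl
  have e3 : ∑ η : V × ZMod 2, (ind (η.2 = 0 ∧ TW S φ c η.1) * (G0 S s η.1 * G0 S s η.1) -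
        ind (η.2 = 1 ∧ SW S φ c η.1) * (G1 S s η.1 * G1 S s η.1)) =
      ∑ y : V, (ind (TW S φ c y) * (G0 S s y * G0 S s y) -
        ind (SW S φ c y) * (G1 S s y * G1 S s y)) := by
    rw [Fintype.sum_prod_type]
    apply Finset.sum_congr rfl
    intro y _
    have hu : (Finset.univ : Finset (ZMod 2)) = {0, 1} := by decide
    rw [hu, Finset.sum_pair (by decide)]
    have i0 : ind (True ∧ TW S φ c y) = ind (TW S φ c y) :=
      ind_congr ⟨fun h => h.2, fun h => ⟨trivial, h⟩⟩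
    have i1 : ind (True ∧ SW S φ c y) = ind (SW S φ c y) :=
      ind_congr ⟨fun h => h.2, fun h => ⟨trivial, h⟩⟩
    have i2 : ind ((1 : ZMod 2) = 0 ∧ TW S φ c y) = 0 :=
      ind_false fun h => absurd h.1 (by decide)
    have i3 : ind ((0 : ZMod 2) = 1 ∧ SW S φ c y) = 0 :=
      ind_false fun h => absurd h.1 (by decide)
    simp only
    rw [i0, i1, i2, i3]
    ring
  have e4 : ∀ y : V, 4 * (ind (TW S φ c y) * (G0 S s y * G0 S s y) -
        ind (SW S φ c y) * (G1 S s y * G1 S s y)) * 3 =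
        16 * (G0 S s y * G0 S s y - G1 S s y * G1 S s y) := by
    intro y
    by_cases h1 : TW S φ c y
    · have h2 : ¬ SW S φ c y := fun h2 => h2.1 h1.1
      rw [ind_true h1, ind_false h2, hS.G_th h1]
      ring
    · by_cases h2 : SW S φ c y
      · rw [ind_false h1, ind_true h2, hS.G_sg h2]
        ring
      · rw [ind_false h1, ind_false h2, hS.G_eq h1 h2]
        ring
  have e5 : ∑ y : V, (ind (TW S φ c y) * (G0 S s y * G0 S s y) -
        ind (SW S φ c y) * (G1 S s y * G1 S s y)) = 0 := by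
    have : ∑ y : V, 4 * (ind (TW S φ c y) * (G0 S s y * G0 S s y) -
        ind (SW S φ c y) * (G1 S s y * G1 S s y)) * 3 = 0 := by
      rw [Finset.sum_congr rfl fun y _ => e4 y, ← Finset.mul_sum, Finset.sum_sub_distrib, hsum,
        sub_self, mul_zero]
    rw [← Finset.sum_mul, ← Finset.mul_sum] at this
    omega
  obtain ⟨y, hy1, hy2⟩ := zero_offW hw' χ₀ hL (by
    rw [Finset.sum_congr rfl fun y _ => e1 y, e2, e3, e5])
  obtain ⟨h1, -⟩ := hF1 y hy1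
  refine ⟨y.1.1, fun v => ?_⟩
  have h2 : gg S (ws s) y.1 v = S.z := hy2 v
  have h3 : y.1 = (y.1.1, 1) := by
    rw [← h1]
  rw [h3] at h2
  exact (go_zero hs y.1.1 v).1 h2

end Pool.Agent.LSS
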